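import Pool.Agent.H94.RFP.Words

/-!
Families of isometries with orthogonal ranges and the abstract obstruction.
-/

namespace Pool.Agent.H94.RFP

section family

variable {A : Type*} [CStarAlgebra A] {I : Type*}

/-- Products of the isometries along a word. -/
noncomputable def wd (T : I → A) (l : List I) : A := (l.map T).prod

lemma wd_nil (T : I → A) : wd T [] = 1 := rfl
lemma wd_cons (T : I → A) (i : I) (l : List I) : wd T (i :: l) = T i * wd T l := by simp [wd]
lemma wd_append (T : I → A) (l l' : List I) : wd T (l ++ l') = wd T l * wd T l' := by simp [wd]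

/-- The span of the `T_μ T_ν^*`. -/
noncomputable def spanT (T : I → A) : Submodule ℂ A :=
  Submodule.span ℂ {x | ∃ μ ν, x = wd T μ * star (wd T ν)}

lemma mem_spanT (T : I → A) (μ ν : List I) : wd T μ * star (wd T ν) ∈ spanT T :=
  Submodule.subset_span ⟨μ, ν, rfl⟩

variable {T : I → A} (h1 : ∀ i, star (T i) * T i = 1) (h2 : ∀ i j, i ≠ j → star (T i) * T j = 0)

include h1 h2 in
lemma T_mul_mem (i : I) (x : A) (hx : x ∈ spanT T) :
    T i * x ∈ spanT T ∧ star (T i) * x ∈ spanT T := by
  classical
  induction hx using Submodule.span_induction with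
  | mem x hx =>
    obtain ⟨μ, ν, rfl⟩ := hx
    constructor
    · rw [← mul_assoc, ← wd_cons]
      exact mem_spanT T _ _
    · cases μ with
      | nil =>
        have : star (T i) * (wd T [] * star (wd T ν)) = wd T [] * star (wd T (ν ++ [i])) := by
          rw [wd_append, wd_cons, wd_nil]
          simp
        rw [this]
        exact mem_spanT T _ _
      | cons j μ =>
        rw [wd_cons]
        by_cases hij : i = j
        · subst hij
          have : star (T i) * (T i * wd T μ * star (wd T ν)) = wd T μ * star (wd T ν) := by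
            rw [mul_assoc (T i), ← mul_assoc (star (T i)), h1, one_mul]
          rw [this]
          exact mem_spanT T _ _
        · have : star (T i) * (T j * wd T μ * star (wd T ν)) = 0 := by
            rw [mul_assoc (T j), ← mul_assoc (star (T i)), h2 i j hij, zero_mul]
          rw [this]
          exact Submodule.zero_mem _
  | zero => simp
  | add x y _ _ hx hy =>
    rw [mul_add, mul_add]
    exact ⟨Submodule.add_mem _ hx.1 hy.1, Submodule.add_mem _ hx.2 hy.2⟩
  | smul c x _ hx =>
    rw [mul_smul_comm, mul_smul_comm]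
    exact ⟨Submodule.smul_mem _ _ hx.1, Submodule.smul_mem _ _ hx.2⟩

include h1 h2 in
lemma adjoin_le_spanT (x : A) (hx : x ∈ StarAlgebra.adjoin ℂ (Set.range T)) : x ∈ spanT T := by
  have key : ∀ y ∈ spanT T, x * y ∈ spanT T := by
    have hx' : x ∈ Algebra.adjoin ℂ (Set.range T ∪ star (Set.range T)) := by
      rw [← StarAlgebra.adjoin_toSubalgebra]
      exact hx
    clear hx
    induction hx' using Algebra.adjoin_induction with
    | mem z hz =>
      intro y hy
      rcases hz with hz | hz
      · obtain ⟨i, rfl⟩ := hz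
        exact (T_mul_mem h1 h2 i y hy).1
      · obtain ⟨i, hi⟩ := hz
        have hz' : z = star (T i) := by rw [hi, star_star]
        rw [hz']
        exact (T_mul_mem h1 h2 i y hy).2
    | algebraMap c =>
      intro y hy
      rw [Algebra.algebraMap_eq_smul_one, smul_mul_assoc, one_mul]
      exact Submodule.smul_mem _ _ hy
    | add a b _ _ ha' hb' =>
      intro y hy
      rw [add_mul]
      exact Submodule.add_mem _ (ha' y hy) (hb' y hy)
    | mul a b _ _ ha' hb' =>
      intro y hy
      rw [mul_assoc]
      exact ha' _ (hb' y hy)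
  have h3 : (1 : A) ∈ spanT T := by
    have := mem_spanT T [] []
    simpa [wd_nil] using this
  simpa using key 1 h3

/-- A state which vanishes on all range projections has no nontrivial centralising unitary. -/
lemma no_centralizer (hd : Dense ((StarAlgebra.adjoin ℂ (Set.range T) : StarSubalgebra ℂ A) : Set A))
    {f : A →L[ℂ] ℂ} (hf : IsState f) (hv : ∀ i, f (T i * star (T i)) = 0)
    (h1 : ∀ i, star (T i) * T i = 1) (h2 : ∀ i j, i ≠ j → star (T i) * T j = 0)
    (v : A) (hvu : star v * v = 1) (hv0 : f v = 0) (hc : ∀ x, f (v * x) = f (x * v)) : False := by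
  -- annihilation
  have hr : ∀ i x, f (x * star (T i)) = 0 := by
    intro i x
    apply hf.null
    rw [star_star]
    exact hv i
  have hl : ∀ i x, f (T i * x) = 0 := by
    intro i x
    have : T i * x = star (star x * star (T i)) := by simp
    rw [this, hf.map_star, hr]
    simp
  have hlw : ∀ (l : List I) x, l ≠ [] → f (wd T l * x) = 0 := by
    intro l x hne
    cases l with
    | nil => exact absurd rfl hne
    | cons i l => rw [wd_cons, mul_assoc]; exact hl i _
  have hrw : ∀ (l : List I) x, l ≠ [] → f (x * star (wd T l)) = 0 := by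
    intro l x hne
    cases l with
    | nil => exact absurd rfl hne
    | cons i l => rw [wd_cons, star_mul, ← mul_assoc]; exact hr i _
  have hspan : ∀ x ∈ spanT T, f (x * v) = 0 := by
    intro x hx
    induction hx using Submodule.span_induction with
    | mem x hx =>
      obtain ⟨μ, ν, rfl⟩ := hx
      by_cases hμ : μ = []
      · by_cases hν : ν = []
        · subst hμ; subst hν
          simpa [wd_nil] using hv0
        · subst hμ
          rw [wd_nil, one_mul, ← hc]
          exact hrw ν v hν
      · rw [mul_assoc]
        exact hlw μ _ hμ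
    | zero => simp
    | add x y _ _ hx hy => rw [add_mul, map_add, hx, hy, add_zero]
    | smul c x _ hx => rw [smul_mul_assoc, map_smul, hx, smul_zero]
  have hall : ∀ x, f (x * v) = 0 := by
    intro x
    have hcl : IsClosed {x : A | f (x * v) = 0} :=
      isClosed_eq (f.continuous.comp (continuous_id.mul continuous_const)) continuous_const
    have hsub : ((StarAlgebra.adjoin ℂ (Set.range T) : StarSubalgebra ℂ A) : Set A) ⊆
        {x : A | f (x * v) = 0} := fun y hy => hspan y (adjoin_le_spanT h1 h2 y hy)
    exact hcl.closure_subset_iff.2 hsub (hd x)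
  have := hall (star v)
  rw [hvu, hf.1] at this
  exact one_ne_zero this

end family

section abstractPIS

variable {C : Type*} [CStarAlgebra C] {s : ℕ → C} {σ : C →L[ℂ] ℂ}

lemma vac_left (hσ : IsState σ) (hvac : ∀ n, σ (s n * star (s n)) = 0) (n : ℕ) (y : C) :
    σ (s n * y) = 0 := by
  have h1 : σ (star y * star (s n)) = 0 := by
    apply hσ.null
    rw [star_star]
    exact hvac n
  have h2 : s n * y = star (star y * star (s n)) := by simp
  rw [h2, hσ.map_star, h1]
  simp

/-- Compressing by a far away generator gives the vacuum state. -/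
lemma compress_span (hs : IsCuntzInfty C s) (hσ : IsState σ)
    (hvac : ∀ n, σ (s n * star (s n)) = 0) (x : C) (hx : x ∈ spanT s) :
    ∃ N₀, ∀ N ≥ N₀, star (s N) * x * s N = σ x • (1 : C) := by
  have hiso := hs.1
  have horth := hs.2.1
  induction hx using Submodule.span_induction with
  | mem x hx =>
    obtain ⟨μ, ν, rfl⟩ := hx
    cases μ with
    | cons i μ =>
      refine ⟨i + 1, fun N hN => ?_⟩
      have hNi : N ≠ i := by omega
      have e1 : star (s N) * (wd s (i :: μ) * star (wd s ν)) * s N = 0 := by
        rw [wd_cons, mul_assoc (s i), ← mul_assoc (star (s N)), horth N i hNi]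
        simp
      have e2 : σ (wd s (i :: μ) * star (wd s ν)) = 0 := by
        rw [wd_cons, mul_assoc]
        exact vac_left hσ hvac _ _
      rw [e1, e2, zero_smul]
    | nil =>
      cases ν with
      | nil =>
        refine ⟨0, fun N _ => ?_⟩
        rw [wd_nil, star_one, mul_one, mul_one, hiso, hσ.1, one_smul]
      | cons i ν =>
        refine ⟨i + 1, fun N hN => ?_⟩
        have hNi : i ≠ N := by omega
        have e1 : star (s N) * (wd s [] * star (wd s (i :: ν))) * s N = 0 := by
          rw [wd_cons, star_mul, wd_nil, one_mul, mul_assoc, mul_assoc, horth i N hNi]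
          simp
        have e2 : σ (wd s [] * star (wd s (i :: ν))) = 0 := by
          rw [wd_nil, one_mul, hσ.map_star, wd_cons, vac_left hσ hvac]
          simp
        rw [e1, e2, zero_smul]
  | zero => exact ⟨0, fun N _ => by simp⟩
  | add x y _ _ hx hy =>
    obtain ⟨N1, h1⟩ := hx
    obtain ⟨N2, h2⟩ := hy
    refine ⟨max N1 N2, fun N hN => ?_⟩
    rw [mul_add, add_mul, h1 N (le_trans (le_max_left _ _) hN), h2 N (le_trans (le_max_right _ _) hN),
      map_add, add_smul]
  | smul c x _ hx =>
    obtain ⟨N1, h1⟩ := hx
    refine ⟨N1, fun N hN => ?_⟩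
    rw [mul_smul_comm, smul_mul_assoc, h1 N hN, map_smul, smul_smul, smul_eq_mul]

/-- Pure infiniteness and simplicity, given that the vacuum matrix coefficients separate. -/
theorem pis_of_separating (hs : IsCuntzInfty C s) (hσ : IsState σ)
    (hvac : ∀ n, σ (s n * star (s n)) = 0) (hbd : ∀ x, ‖σ x‖ ≤ ‖x‖)
    (hsep : ∀ x : C, x ≠ 0 → ∃ v w, σ (star (wd s v) * x * wd s w) ≠ 0) :
    PurelyInfiniteSimple C := by
  have hone : (1 : C) ≠ 0 := by
    intro h
    have := hσ.1
    rw [h, map_zero] at this
    exact zero_ne_one this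
  haveI : Nontrivial C := ⟨⟨1, 0, hone⟩⟩
  have hn1 : ‖(1 : C)‖ = 1 := CStarRing.norm_one
  have hsn : ∀ N, ‖s N‖ ≤ 1 := by
    intro N
    have h := CStarRing.norm_star_mul_self (x := s N)
    rw [hs.1, hn1] at h
    nlinarith [norm_nonneg (s N)]
  constructor
  · intro hsurj
    obtain ⟨c, hc⟩ := hsurj (s 0)
    have h1 : σ (s 0) = c := by
      rw [← hc, Algebra.algebraMap_eq_smul_one, map_smul, hσ.1]
      simp
    have h2 : σ (s 0) = 0 := by
      have := vac_left hσ hvac 0 1
      rwa [mul_one] at this
    rw [h2] at h1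
    rw [← h1, map_zero] at hc
    have h3 := hs.1 0
    rw [← hc, mul_zero] at h3
    exact hone h3.symm
  · intro x hx
    obtain ⟨v, w, hvw⟩ := hsep x hx
    set y : C := star (wd s v) * x * wd s w with hy
    set c := σ y with hcdef
    have hcpos : 0 < ‖c‖ := norm_pos_iff.2 hvw
    obtain ⟨z, hz, hzy⟩ : ∃ z ∈ spanT s, ‖y - z‖ < ‖c‖ / 4 := by
      have := hs.2.2 y
      rw [Metric.mem_closure_iff] at this
      obtain ⟨z, hz, hzd⟩ := this (‖c‖ / 4) (by positivity)
      refine ⟨z, adjoin_le_spanT hs.1 hs.2.1 z hz, ?_⟩
      rwa [dist_eq_norm] at hzd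
    obtain ⟨N, hN⟩ := compress_span hs hσ hvac z hz
    have hN' := hN N le_rfl
    set t : C := star (s N) * y * s N with ht
    have hclose : ‖t - c • (1 : C)‖ < ‖c‖ := by
      have e1 : t - c • (1 : C) = star (s N) * (y - z) * s N + (σ (z - y)) • (1 : C) := by
        rw [ht, mul_sub, sub_mul, hN', map_sub, sub_smul, ← hcdef]
        abel
      rw [e1]
      have b1 : ‖star (s N) * (y - z) * s N‖ ≤ ‖y - z‖ := by
        calc ‖star (s N) * (y - z) * s N‖ ≤ ‖star (s N)‖ * ‖y - z‖ * ‖s N‖ :=
              (norm_mul_le _ _).trans (by gcongr; exact norm_mul_le _ _)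
          _ ≤ 1 * ‖y - z‖ * 1 := by
              rw [norm_star]
              have := hsn N
              gcongr
          _ = _ := by ring
      have b2 : ‖(σ (z - y)) • (1 : C)‖ ≤ ‖y - z‖ := by
        rw [norm_smul, hn1, mul_one, norm_sub_rev]
        exact hbd _
      calc _ ≤ ‖star (s N) * (y - z) * s N‖ + ‖(σ (z - y)) • (1 : C)‖ := norm_add_le _ _
        _ ≤ ‖y - z‖ + ‖y - z‖ := add_le_add b1 b2
        _ < ‖c‖ := by linarith
    have hunit : IsUnit t := by
      have h1 : ‖(1 : C) - c⁻¹ • t‖ < 1 := by
        have e2 : (1 : C) - c⁻¹ • t = c⁻¹ • (c • (1 : C) - t) := by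
          rw [smul_sub, smul_smul, inv_mul_cancel₀ hvw, one_smul]
        rw [e2, norm_smul, norm_inv, norm_sub_rev, inv_mul_lt_iff₀ hcpos, mul_one]
        exact hclose
      have h2 : IsUnit (c⁻¹ • t) := by
        have := (Units.oneSub ((1 : C) - c⁻¹ • t) h1).isUnit
        simpa using this
      have h3 : t = algebraMap ℂ C c * (c⁻¹ • t) := by
        rw [Algebra.algebraMap_eq_smul_one, smul_mul_assoc, one_mul, smul_smul,
          mul_inv_cancel₀ hvw, one_smul]
      rw [h3]
      exact ((IsUnit.mk0 c hvw).map (algebraMap ℂ C)).mul h2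
    obtain ⟨U, hU⟩ := hunit
    refine ⟨(↑U⁻¹ : C) * star (s N) * star (wd s v), wd s w * s N, ?_⟩
    have e3 : (↑U⁻¹ : C) * star (s N) * star (wd s v) * x * (wd s w * s N) =
        (↑U⁻¹ : C) * t := by
      rw [ht, hy]
      simp only [mul_assoc]
    rw [e3, ← hU]
    simp

end abstractPIS

section power

variable {C : Type*} [CStarAlgebra C] {s : ℕ → C} {σ : C →L[ℂ] ℂ} {ι : Type*}
  {A : Type*} [CStarAlgebra A] {φ : A →L[ℂ] ℂ} {lam : ι → C →⋆ₐ[ℂ] A}

/-- In the free power of a vacuum state, all the generators are isometries with mutually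
orthogonal ranges. -/
lemma orth_power (hs : IsCuntzInfty C s) (hσ : IsState σ) (hvac : ∀ n, σ (s n * star (s n)) = 0)
    (hA : IsReducedFreeProduct (A := fun _ : ι => C) (fun _ => σ) φ lam) (p q : ι × ℕ)
    (hpq : p ≠ q) : star (lam p.1 (s p.2)) * lam q.1 (s q.2) = 0 := by
  classical
  obtain ⟨i, m⟩ := p
  obtain ⟨j, n⟩ := q
  simp only
  have hr : ∀ x, σ (x * star (s m)) = 0 := by
    intro x
    apply hσ.null
    rw [star_star]
    exact hvac m
  have hl : ∀ x, σ (s n * x) = 0 := by
    intro x
    have : s n * x = star (star x * star (s n)) := by simp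
    have hr' : σ (star x * star (s n)) = 0 := by
      apply hσ.null
      rw [star_star]
      exact hvac n
    rw [this, hσ.map_star, hr']
    simp
  by_cases hij : i = j
  · subst hij
    have hmn : m ≠ n := fun h => hpq (by rw [h])
    rw [← map_star, ← map_mul, hs.2.1 m n hmn, map_zero]
  · -- words
    have hword : ∀ l l' : List (Σ _ : ι, C), Good (A := fun _ : ι => C) (fun _ => σ) l →
        Good (A := fun _ : ι => C) (fun _ => σ) l' →
        φ (pr (A := fun _ : ι => C) lam l * (star (lam i (s m)) * lam j (s n)) *
          pr (A := fun _ : ι => C) lam l') = 0 := by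
      intro l l' hl0 hl'0
      -- right part
      obtain ⟨r, hr1, hr2⟩ : ∃ r : List (Σ _ : ι, C), Good (A := fun _ : ι => C) (fun _ => σ)
          (⟨j, r.head?.elim (s n) (fun p => p.2)⟩ :: []) ∧ True := ⟨[], ⟨by simp, by
            intro p hp
            simp only [List.mem_singleton] at hp
            subst hp
            simpa using hl 1⟩, trivial⟩
      have right : ∃ (c : C) (t : List (Σ _ : ι, C)), Good (A := fun _ : ι => C) (fun _ => σ)
          (⟨j, c⟩ :: t) ∧ lam j (s n) * pr (A := fun _ : ι => C) lam l' =
            pr (A := fun _ : ι => C) lam (⟨j, c⟩ :: t) := by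
        cases l' with
        | nil =>
          refine ⟨s n, [], ⟨by simp, ?_⟩, ?_⟩
          · intro p hp
            simp only [List.mem_singleton] at hp
            subst hp
            simpa using hl 1
          · rw [pr_cons]
        | cons p t =>
          by_cases hp : j = p.1
          · obtain ⟨k, c⟩ := p
            simp only at hp
            subst hp
            refine ⟨s n * c, t, good_replace (A := fun _ : ι => C) hl'0 (s n * c) (hl c), ?_⟩
            rw [pr_cons, pr_cons, map_mul, mul_assoc]
          · refine ⟨s n, p :: t, good_cons (A := fun _ : ι => C) hl'0 j hp (s n)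
              (by simpa using hl 1), ?_⟩
            rw [pr_cons (A := fun _ : ι => C) ⟨j, s n⟩]
      obtain ⟨c, t, ht, hteq⟩ := right
      -- left part, by reversing
      have left : ∃ (d : C) (u : List (Σ _ : ι, C)), Good (A := fun _ : ι => C) (fun _ => σ)
          (⟨i, d⟩ :: u) ∧ lam i (s m) * pr (A := fun _ : ι => C) lam (rev (A := fun _ : ι => C) l) =
            pr (A := fun _ : ι => C) lam (⟨i, d⟩ :: u) := by
        have hlr := good_rev hA hl0
        have hlm : ∀ x, σ (s m * x) = 0 := by
          intro x
          have : s m * x = star (star x * star (s m)) := by simp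
          rw [this, hσ.map_star, hr]
          simp
        cases hcase : rev (A := fun _ : ι => C) l with
        | nil =>
          refine ⟨s m, [], ⟨by simp, ?_⟩, ?_⟩
          · intro p hp
            simp only [List.mem_singleton] at hp
            subst hp
            simpa using hlm 1
          · rw [pr_cons]
        | cons p t =>
          rw [hcase] at hlr
          by_cases hp : i = p.1
          · obtain ⟨k, c⟩ := p
            simp only at hp
            subst hp
            refine ⟨s m * c, t, good_replace (A := fun _ : ι => C) hlr (s m * c) (hlm c), ?_⟩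
            rw [pr_cons, pr_cons, map_mul, mul_assoc]
          · refine ⟨s m, p :: t, good_cons (A := fun _ : ι => C) hlr i hp (s m)
              (by simpa using hlm 1), ?_⟩
            rw [pr_cons (A := fun _ : ι => C) ⟨i, s m⟩]
      obtain ⟨d, u, hu, hueq⟩ := left
      have e1 : pr (A := fun _ : ι => C) lam l * star (lam i (s m)) =
          pr (A := fun _ : ι => C) lam (rev (A := fun _ : ι => C) (⟨i, d⟩ :: u)) := by
        rw [pr_rev, ← hueq, star_mul, pr_rev, star_star]
      have e2 : pr (A := fun _ : ι => C) lam l * (star (lam i (s m)) * lam j (s n)) *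
          pr (A := fun _ : ι => C) lam l' =
          pr (A := fun _ : ι => C) lam (rev (A := fun _ : ι => C) (⟨i, d⟩ :: u) ++ (⟨j, c⟩ :: t)) := by
        rw [pr_append, ← e1, ← hteq]
        simp only [mul_assoc]
      rw [e2]
      apply free_good hA
      · have g1 := good_rev hA hu
        refine ⟨?_, ?_⟩
        · have e3 : rev (A := fun _ : ι => C) (⟨i, d⟩ :: u) =
              rev (A := fun _ : ι => C) u ++ [⟨i, star d⟩] := by simp [rev]
          rw [e3] at g1 ⊢
          rw [List.isChain_append]
          refine ⟨g1.1, ht.1, ?_⟩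
          intro x hx y hy
          simp at hx hy
          subst hx
          subst hy
          exact hij
        · intro p hp
          rcases List.mem_append.1 hp with hp | hp
          · exact g1.2 p hp
          · exact ht.2 p hp
      · simp
    apply hA.faithful
    intro x y
    -- extend to all x y
    have step1 : ∀ l', Good (A := fun _ : ι => C) (fun _ => σ) l' → ∀ x,
        φ (x * (star (lam i (s m)) * lam j (s n)) * pr (A := fun _ : ι => C) lam l') = 0 := by
      intro l' hl'
      let g : A →L[ℂ] ℂ := φ.comp ((ContinuousLinearMap.mul ℂ A).flip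
        ((star (lam i (s m)) * lam j (s n)) * pr (A := fun _ : ι => C) lam l'))
      have hg : ∀ x, g x = φ (x * (star (lam i (s m)) * lam j (s n)) *
          pr (A := fun _ : ι => C) lam l') := by
        intro x
        simp [g, mul_assoc]
      intro x
      rw [← hg]
      apply eq_zero_of_words hA g
      intro l hl
      rw [hg]
      exact hword l l' hl hl'
    let g : A →L[ℂ] ℂ := φ.comp (ContinuousLinearMap.mul ℂ A
        (x * (star (lam i (s m)) * lam j (s n))))
    have hg : ∀ y, g y = φ (x * (star (lam i (s m)) * lam j (s n)) * y) := by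
      intro y
      simp [g]
    rw [← hg]
    apply eq_zero_of_words hA g
    intro l hl
    rw [hg]
    exact step1 l hl x

/-- The generators generate. -/
lemma dense_power (hs : IsCuntzInfty C s)
    (hA : IsReducedFreeProduct (A := fun _ : ι => C) (fun _ => σ) φ lam) :
    Dense ((StarAlgebra.adjoin ℂ (Set.range fun p : ι × ℕ => lam p.1 (s p.2)) :
      StarSubalgebra ℂ A) : Set A) := by
  set S := StarAlgebra.adjoin ℂ (Set.range fun p : ι × ℕ => lam p.1 (s p.2)) with hS
  have h1 : ∀ i (c : C), lam i c ∈ S.topologicalClosure := by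
    intro i c
    have h2 : ∀ c ∈ StarAlgebra.adjoin ℂ (Set.range s), lam i c ∈ S := by
      intro c hc
      have h3 : StarAlgebra.adjoin ℂ (Set.range s) ≤ S.comap (lam i) := by
        apply StarAlgebra.adjoin_le
        rintro _ ⟨n, rfl⟩
        exact StarAlgebra.subset_adjoin ℂ _ ⟨(i, n), rfl⟩
      exact h3 hc
    have hcont : Continuous (lam i) := AddMonoidHomClass.continuous_of_bound (lam i) 1
      (fun x => by simpa using NonUnitalStarAlgHom.norm_apply_le (lam i) x)
    have h4 : IsClosed {c : C | lam i c ∈ S.topologicalClosure} :=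
      (StarSubalgebra.isClosed_topologicalClosure S).preimage hcont
    have h5 : ((StarAlgebra.adjoin ℂ (Set.range s) : StarSubalgebra ℂ C) : Set C) ⊆
        {c : C | lam i c ∈ S.topologicalClosure} :=
      fun c hc => StarSubalgebra.le_topologicalClosure S (h2 c hc)
    exact h4.closure_subset_iff.2 h5 (hs.2.2 c)
  have h6 : StarAlgebra.adjoin ℂ (⋃ i, Set.range (lam i)) ≤ S.topologicalClosure := by
    apply StarAlgebra.adjoin_le
    intro x hx
    obtain ⟨i, c, rfl⟩ := by simpa using hx
    exact h1 i c
  intro x
  have h7 := closure_mono (s := ((StarAlgebra.adjoin ℂ (⋃ i, Set.range (lam i)) :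
    StarSubalgebra ℂ A) : Set A)) (t := (S.topologicalClosure : Set A)) h6 (hA.generate x)
  rw [(StarSubalgebra.isClosed_topologicalClosure S).closure_eq] at h7
  exact h7

end power

/-- The abstract obstruction. -/
theorem no_iso {ι : Type} {O C A B : Type} [CStarAlgebra O] [CStarAlgebra C] [CStarAlgebra A] [CStarAlgebra B]
    {s : ℕ → C} {σ : C →L[ℂ] ℂ} {φ : A →L[ℂ] ℂ} {lam : ι → C →⋆ₐ[ℂ] A} {ω : O →L[ℂ] ℂ}
    {ψ : B →L[ℂ] ℂ} {kap : ∀ b : Bool, Pair O A b →⋆ₐ[ℂ] B}
    (hs : IsCuntzInfty C s) (hσ : IsState σ) (hvac : ∀ n, σ (s n * star (s n)) = 0)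
    (u : O) (hu : star u * u = 1) (hωu : ω u = 0) (hcent : ∀ x, ω (u * x) = ω (x * u))
    (hA : IsReducedFreeProduct (A := fun _ : ι => C) (fun _ => σ) φ lam)
    (hB : IsReducedFreeProduct (pairState ω φ) ψ kap)
    (θ : B ≃⋆ₐ[ℂ] A) (hθ : ∀ b, φ (θ b) = ψ b) : False := by
  let κ : O →⋆ₐ[ℂ] B := kap true
  have hκ : ∀ x, ψ (κ x) = ω x := fun x => hB.restrict true x
  let ku : B := κ u
  -- `ku` centralises `ψ`
  have hcB : ∀ b, ψ (ku * b) = ψ (b * ku) := by
    let g : B →L[ℂ] ℂ := ψ.comp (ContinuousLinearMap.mul ℂ B ku - (ContinuousLinearMap.mul ℂ B).flip ku)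
    have hg : ∀ b, g b = ψ (ku * b) - ψ (b * ku) := by
      intro b
      simp [g]
    intro b
    rw [← sub_eq_zero, ← hg]
    apply eq_zero_of_words hB g
    intro l hl
    rw [hg, sub_eq_zero]
    match l, hl with
    | [], _ => simp [pr]
    | [⟨true, x⟩], _ =>
      have gen : ∀ y : O, ψ (ku * κ y) = ψ (κ y * ku) := by
        intro y
        have e1 : ku * κ y = κ (u * y) := (map_mul κ u y).symm
        have e2 : κ y * ku = κ (y * u) := (map_mul κ y u).symm
        rw [e1, e2, hκ, hκ]
        exact hcent y
      have e0 : pr kap [⟨true, x⟩] = κ x := by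
        rw [pr_cons, pr_nil, mul_one]
        rfl
      rw [e0]
      exact gen x
    | [⟨false, x⟩], hl =>
      have hxx : pairState ω φ false x = 0 := hl.2 ⟨false, x⟩ (by simp)
      have g1 : Good (pairState ω φ) [⟨true, (u : Pair O A true)⟩, ⟨false, x⟩] := by
        refine ⟨?_, ?_⟩
        · rw [List.isChain_cons_cons]
          exact ⟨by simp, by simp⟩
        · intro p hp
          simp only [List.mem_cons, List.not_mem_nil, or_false] at hp
          rcases hp with rfl | rfl
          · exact hωu
          · exact hxx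
      have g2 : Good (pairState ω φ) [⟨false, x⟩, ⟨true, (u : Pair O A true)⟩] := by
        refine ⟨?_, ?_⟩
        · rw [List.isChain_cons_cons]
          exact ⟨by simp, by simp⟩
        · intro p hp
          simp only [List.mem_cons, List.not_mem_nil, or_false] at hp
          rcases hp with rfl | rfl
          · exact hxx
          · exact hωu
      have e1 : ψ (ku * pr kap [⟨false, x⟩]) = 0 := by
        have := free_good hB g1 (by simp)
        rw [pr_cons] at this
        exact this
      have e2 : ψ (pr kap [⟨false, x⟩] * ku) = 0 := by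
        have := free_good hB g2 (by simp)
        rw [pr_cons, pr_cons, pr_nil, mul_one] at this
        rw [pr_cons, pr_nil, mul_one]
        exact this
      rw [e1, e2]
    | p :: q :: l, hl =>
      have z1 : ψ (ku * pr kap (p :: q :: l)) = 0 := left_zero hB hl true u
      have z2 : ψ (pr kap (p :: q :: l) * ku) = 0 := right_zero hB hl (by simp) true u
      rw [z1, z2]
  -- transport
  refine no_centralizer (T := fun p : ι × ℕ => lam p.1 (s p.2)) (dense_power hs hA) hA.state
    ?_ ?_ ?_ (θ ku) ?_ ?_ ?_
  · intro p
    have : lam p.1 (s p.2) * star (lam p.1 (s p.2)) = lam p.1 (s p.2 * star (s p.2)) := by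
      rw [map_mul, map_star]
    rw [this, hA.restrict]
    exact hvac _
  · intro p
    rw [← map_star, ← map_mul, hs.1, map_one]
  · intro p q hpq
    exact orth_power hs hσ hvac hA p q hpq
  · rw [← map_star, ← map_mul]
    have h2 : star ku * ku = κ (star u * u) := by
      rw [map_mul, map_star]
    rw [h2, hu, map_one, map_one]
  · rw [hθ, hκ]
    exact hωu
  · intro x
    obtain ⟨b, hb⟩ : ∃ b, θ b = x := θ.surjective x
    rw [← hb, ← map_mul, ← map_mul, hθ, hθ]
    exact hcB b

end Pool.Agent.H94.RFP
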