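import Mathlib

/-!
Definitions: states, purely infinite simple algebras, Cuntz families and reduced free products.
-/

namespace Pool.Agent.H94.RFP

/-- A state on a unital C*-algebra: a continuous linear functional `f` with `f 1 = 1` and
`f (a* a) ≥ 0` for all `a`. -/
def IsState {A : Type*} [CStarAlgebra A] (f : A →L[ℂ] ℂ) : Prop :=
  f 1 = 1 ∧ ∀ a : A, 0 ≤ (f (star a * a)).re ∧ (f (star a * a)).im = 0

/-- A unital C*-algebra is purely infinite and simple: it is not the scalars and for every
`x ≠ 0` there are `a, b` with `a x b = 1`. -/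
def PurelyInfiniteSimple (A : Type*) [CStarAlgebra A] : Prop :=
  (¬ Function.Surjective (algebraMap ℂ A)) ∧ ∀ x : A, x ≠ 0 → ∃ a b : A, a * x * b = 1

/-- `s` is a sequence of isometries with mutually orthogonal ranges which generates the
C*-algebra `A`; so `A` is the Cuntz algebra `O_∞`. -/
def IsCuntzInfty (A : Type*) [CStarAlgebra A] (s : ℕ → A) : Prop :=
  (∀ n, star (s n) * s n = 1) ∧ (∀ m n, m ≠ n → star (s m) * s n = 0) ∧
    Dense ((StarAlgebra.adjoin ℂ (Set.range s) : StarSubalgebra ℂ A) : Set A)

/-- `(B, ψ)`, with the unital *-homomorphisms `lam i : A i → B`, is the reduced free product of the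
family `(A i, φ i)` of unital C*-algebras with states: `ψ` is a state which restricts to `φ i` on
each `A i`; the images of the `A i` are free with respect to `ψ`; they generate the C*-algebra `B`;
and the GNS representation of `ψ` is faithful. -/
structure IsReducedFreeProduct {ι : Type*} {A : ι → Type*} [∀ i, CStarAlgebra (A i)]
    (φ : ∀ i, A i →L[ℂ] ℂ) {B : Type*} [CStarAlgebra B] (ψ : B →L[ℂ] ℂ)
    (lam : ∀ i, A i →⋆ₐ[ℂ] B) : Prop where
  state : IsState ψ
  restrict : ∀ i a, ψ (lam i a) = φ i a
  free : ∀ l : List (Σ i, A i), l ≠ [] → l.IsChain (fun p q => p.1 ≠ q.1) →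
    (∀ p ∈ l, φ p.1 p.2 = 0) → ψ ((l.map fun p => lam p.1 p.2).prod) = 0
  generate : Dense ((StarAlgebra.adjoin ℂ (⋃ i, Set.range (lam i)) : StarSubalgebra ℂ B) : Set B)
  faithful : ∀ b : B, (∀ x y : B, ψ (x * b * y) = 0) → b = 0

/-- The two-element family consisting of the algebras `O` and `A`. -/
def Pair (O A : Type) : Bool → Type
  | true => O
  | false => A

noncomputable instance (O A : Type) [hO : CStarAlgebra O] [hA : CStarAlgebra A] :
    ∀ b : Bool, CStarAlgebra (Pair O A b)
  | true => hO
  | false => hA

/-- The family of functionals `(ω, φ)` on the pair `(O, A)`. -/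
def pairState {O A : Type} [CStarAlgebra O] [CStarAlgebra A] (ω : O →L[ℂ] ℂ) (φ : A →L[ℂ] ℂ) :
    ∀ b : Bool, Pair O A b →L[ℂ] ℂ
  | true => ω
  | false => φ

/-! ### Basic facts on states -/

section states

variable {A : Type*} [CStarAlgebra A] {f : A →L[ℂ] ℂ}

lemma IsState.herm_aux (hf : IsState f) (a y : A) :
    f (star y * a) = (starRingEnd ℂ) (f (star a * y)) := by
  have h : ∀ c : ℂ, (f (star (a + c • y) * (a + c • y))).im = 0 := fun c => (hf.2 _).2
  have e : ∀ c : ℂ, f (star (a + c • y) * (a + c • y)) =
      f (star a * a) + c * f (star a * y) + (starRingEnd ℂ c) * f (star y * a)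
        + (starRingEnd ℂ c) * c * f (star y * y) := by
    intro c
    simp only [star_add, star_smul, add_mul, mul_add, smul_mul_assoc, mul_smul_comm, map_add,
      map_smul, smul_eq_mul, RCLike.star_def]
    ring
  have ha := (hf.2 a).2
  have hy := (hf.2 y).2
  have h1 := h 1
  have h2 := h Complex.I
  rw [e] at h1 h2
  simp [Complex.add_im, Complex.mul_im, ha, hy] at h1 h2
  apply Complex.ext
  · simp; linarith
  · simp; linarith

lemma IsState.map_star (hf : IsState f) (a : A) : f (star a) = (starRingEnd ℂ) (f a) := by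
  have := hf.herm_aux 1 a
  simpa using this

lemma IsState.null (hf : IsState f) (y : A) (hy : f (star y * y) = 0) (a : A) :
    f (a * y) = 0 := by
  set z := f (a * y) with hz
  have hw : f (star y * star a) = (starRingEnd ℂ) z := by
    have := hf.herm_aux (star a) y
    simpa using this
  by_contra hne
  have hpos : 0 < Complex.normSq z := Complex.normSq_pos.2 hne
  have key : ∀ t : ℝ, 0 ≤ (f (a * star a)).re - 2 * t * Complex.normSq z := by
    intro t
    have h := (hf.2 (star a + (-(t : ℂ) * (starRingEnd ℂ) z) • y)).1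
    have e : f (star (star a + (-(t : ℂ) * (starRingEnd ℂ) z) • y) *
        (star a + (-(t : ℂ) * (starRingEnd ℂ) z) • y)) =
        f (a * star a) + (-(t : ℂ) * (starRingEnd ℂ) z) * z +
          (starRingEnd ℂ (-(t : ℂ) * (starRingEnd ℂ) z)) * (starRingEnd ℂ) z := by
      rw [← hw]
      simp only [star_add, star_smul, add_mul, mul_add, smul_mul_assoc, mul_smul_comm, map_add,
        map_smul, smul_eq_mul, RCLike.star_def, star_star, hy, ← hz]
      ring
    rw [e] at h
    have e2 : (f (a * star a) + (-(t : ℂ) * (starRingEnd ℂ) z) * z +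
          (starRingEnd ℂ (-(t : ℂ) * (starRingEnd ℂ) z)) * (starRingEnd ℂ) z).re =
        (f (a * star a)).re - 2 * t * Complex.normSq z := by
      simp [Complex.normSq_apply]
      ring
    rwa [e2] at h
  have h1 := key (((f (a * star a)).re + 1) / (2 * Complex.normSq z))
  have h2 : 2 * (((f (a * star a)).re + 1) / (2 * Complex.normSq z)) * Complex.normSq z =
      (f (a * star a)).re + 1 := by
    field_simp
  rw [h2] at h1
  linarith

end states

end Pool.Agent.H94.RFP
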