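import Pool.Agent.H94.RFP.Words

/-!
Existence of reduced free products (Voiculescu's construction).
-/

namespace Pool.Agent.H94.RFP.Exist

open scoped InnerProductSpace

/-! ### Diagonal operators on a Hilbert sum of copies of one space -/

section diag

variable {X : Type} {H : Type} [NormedAddCommGroup H] [InnerProductSpace ℂ H] [CompleteSpace H]

lemma mem_diag (T : H →L[ℂ] H) (f : lp (fun _ : X => H) 2) :
    Memℓp (fun x => T (f x)) 2 := by
  have h := lp.memℓp f
  have h2 : 0 < (2 : ENNReal).toReal := by norm_num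
  rw [memℓp_gen_iff h2] at h ⊢
  refine Summable.of_nonneg_of_le (fun x => by positivity) (fun x => ?_) (h.mul_left (‖T‖ ^ (2 : ENNReal).toReal))
  rw [← Real.mul_rpow (norm_nonneg _) (norm_nonneg _)]
  exact Real.rpow_le_rpow (norm_nonneg _) (T.le_opNorm _) h2.le

/-- The diagonal operator. -/
noncomputable def diagL (T : H →L[ℂ] H) : lp (fun _ : X => H) 2 →ₗ[ℂ] lp (fun _ : X => H) 2 where
  toFun f := ⟨fun x => T (f x), mem_diag T f⟩
  map_add' f g := by
    ext x
    exact map_add T (f x) (g x)
  map_smul' c f := by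
    ext x
    simp

lemma diagL_apply (T : H →L[ℂ] H) (f : lp (fun _ : X => H) 2) (x : X) : diagL T f x = T (f x) := rfl

noncomputable def diag (T : H →L[ℂ] H) : lp (fun _ : X => H) 2 →L[ℂ] lp (fun _ : X => H) 2 :=
  (diagL T).mkContinuous ‖T‖ (by
    intro f
    have h2 : 0 < (2 : ENNReal).toReal := by norm_num
    apply lp.norm_le_of_tsum_le h2 (by positivity)
    have h1 : ∀ x, ‖diagL T f x‖ ^ (2 : ENNReal).toReal ≤
        ‖T‖ ^ (2 : ENNReal).toReal * ‖f x‖ ^ (2 : ENNReal).toReal := by
      intro x
      rw [← Real.mul_rpow (norm_nonneg _) (norm_nonneg _)]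
      exact Real.rpow_le_rpow (norm_nonneg _) (T.le_opNorm _) h2.le
    have hs := (lp.memℓp f).summable h2
    calc ∑' x, ‖diagL T f x‖ ^ (2 : ENNReal).toReal
        ≤ ∑' x, ‖T‖ ^ (2 : ENNReal).toReal * ‖f x‖ ^ (2 : ENNReal).toReal := by
          apply Summable.tsum_le_tsum h1 _ (hs.mul_left _)
          exact Summable.of_nonneg_of_le (fun x => by positivity) h1 (hs.mul_left _)
      _ = ‖T‖ ^ (2 : ENNReal).toReal * ∑' x, ‖f x‖ ^ (2 : ENNReal).toReal := tsum_mul_left
      _ = ‖T‖ ^ (2 : ENNReal).toReal * ‖f‖ ^ (2 : ENNReal).toReal := by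
          rw [lp.norm_rpow_eq_tsum h2]
      _ = (‖T‖ * ‖f‖) ^ (2 : ENNReal).toReal := by
          rw [← Real.mul_rpow (norm_nonneg _) (norm_nonneg _)])

lemma diag_apply (T : H →L[ℂ] H) (f : lp (fun _ : X => H) 2) (x : X) : diag T f x = T (f x) := rfl

lemma diag_single [DecidableEq X] (T : H →L[ℂ] H) (x : X) (v : H) :
    diag T (lp.single 2 x v) = lp.single 2 x (T v) := by
  ext y
  rw [diag_apply]
  by_cases h : y = x
  · subst h; simp
  · simp [lp.single_apply_ne, h]

/-- The diagonal representation. -/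
noncomputable def diagHom : (H →L[ℂ] H) →⋆ₐ[ℂ] (lp (fun _ : X => H) 2 →L[ℂ] lp (fun _ : X => H) 2) where
  toFun T := diag T
  map_one' := by
    ext f x
    rfl
  map_mul' S T := by
    ext f x
    rfl
  map_zero' := by
    ext f x
    rfl
  map_add' S T := by
    ext f x
    rfl
  commutes' c := by
    ext f x
    rfl
  map_star' T := by
    rw [ContinuousLinearMap.star_eq_adjoint, ContinuousLinearMap.star_eq_adjoint]
    rw [ContinuousLinearMap.eq_adjoint_iff]
    intro f g
    rw [lp.inner_eq_tsum, lp.inner_eq_tsum]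
    congr 1
    ext x
    rw [diag_apply, diag_apply, ContinuousLinearMap.adjoint_inner_left]

lemma diagHom_apply (T : H →L[ℂ] H) :
    (diagHom (X := X) (H := H)) T = diag T := rfl

end diag

/-! ### Words -/

section words

variable {ι : Type} {K : ι → Type} (o : ∀ i, K i)

/-- Alternating words in the non-base indices. -/
def WordOK (l : List (Σ i, K i)) : Prop :=
  l.IsChain (fun p q => p.1 ≠ q.1) ∧ ∀ p ∈ l, p.2 ≠ o p.1

/-- The set of alternating words. -/
abbrev Wd : Type := {l : List (Σ i, K i) // WordOK o l}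

/-- The word does not start with a letter of index `i`. -/
def NotHead (i : ι) (l : List (Σ i, K i)) : Prop := ∀ p ∈ l.head?, p.1 ≠ i

/-- The words not starting with a letter of index `i`. -/
abbrev Wi (i : ι) : Type := {l : Wd o // NotHead i l.1}

variable {o}

lemma ok_cons {i : ι} {k : K i} (hk : k ≠ o i) (w : Wi o i) : WordOK o (⟨i, k⟩ :: w.1.1) := by
  refine ⟨?_, ?_⟩
  · rw [List.isChain_cons]
    exact ⟨fun y hy => (w.2 y hy).symm, w.1.2.1⟩
  · intro p hp
    rcases List.mem_cons.1 hp with rfl | hp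
    · exact hk
    · exact w.1.2.2 p hp

open Classical in
/-- Adding a letter (the base letter is not written). -/
noncomputable def con (i : ι) (k : K i) (w : Wi o i) : Wd o :=
  if hk : k = o i then w.1 else ⟨⟨i, k⟩ :: w.1.1, ok_cons hk w⟩

lemma con_base (i : ι) (w : Wi o i) : con i (o i) w = w.1 := dif_pos rfl

lemma con_ne {i : ι} {k : K i} (hk : k ≠ o i) (w : Wi o i) :
    con i k w = ⟨⟨i, k⟩ :: w.1.1, ok_cons hk w⟩ := dif_neg hk

lemma con_inj (i : ι) {k k' : K i} {w w' : Wi o i} (h : con i k w = con i k' w') :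
    k = k' ∧ w = w' := by
  by_cases hk : k = o i
  · by_cases hk' : k' = o i
    · subst hk
      rw [hk', con_base, con_base] at h
      exact ⟨hk'.symm, Subtype.ext h⟩
    · subst hk
      rw [con_base, con_ne hk'] at h
      exfalso
      have := w.2
      rw [h] at this
      exact this ⟨i, k'⟩ (by simp) rfl
  · by_cases hk' : k' = o i
    · subst hk'
      rw [con_base, con_ne hk] at h
      exfalso
      have := w'.2
      rw [← h] at this
      exact this ⟨i, k⟩ (by simp) rfl
    · rw [con_ne hk, con_ne hk'] at h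
      have h1 := congrArg Subtype.val h
      simp only [List.cons.injEq, Sigma.mk.injEq, true_and] at h1
      exact ⟨eq_of_heq h1.1, Subtype.ext (Subtype.ext h1.2)⟩

lemma con_surj (i : ι) (l : Wd o) : ∃ k w, con i k w = l := by
  classical
  obtain ⟨l, hl⟩ := l
  cases l with
  | nil => exact ⟨o i, ⟨⟨[], hl⟩, by intro p hp; simp at hp⟩, by rw [con_base]⟩
  | cons p t =>
    by_cases hp : p.1 = i
    · subst hp
      have hne : p.2 ≠ o p.1 := hl.2 p (by simp)
      have ht : WordOK o t := ⟨hl.1.tail, fun q hq => hl.2 q (List.mem_cons_of_mem _ hq)⟩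
      have hn : NotHead p.1 t := by
        intro q hq
        have := (List.isChain_cons.1 hl.1).1 q hq
        exact this.symm
      refine ⟨p.2, ⟨⟨t, ht⟩, hn⟩, ?_⟩
      rw [con_ne hne]
    · refine ⟨o i, ⟨⟨p :: t, hl⟩, ?_⟩, by rw [con_base]⟩
      intro q hq
      simp at hq
      subst hq
      exact hp

end words

/-! ### The free product Hilbert space -/

section space

variable {ι : Type} {K : ι → Type} {o : ∀ i, K i} {H : ι → Type}
  [∀ i, NormedAddCommGroup (H i)] [∀ i, InnerProductSpace ℂ (H i)] [∀ i, CompleteSpace (H i)]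
  (b : ∀ i, HilbertBasis (K i) ℂ (H i))

/-- The free product Hilbert space. -/
noncomputable abbrev FS (o : ∀ i, K i) := lp (fun _ : Wd o => ℂ) 2

/-- Its canonical basis. -/
noncomputable def eb (o : ∀ i, K i) : HilbertBasis (Wd o) ℂ (FS o) :=
  HilbertBasis.ofRepr (LinearIsometryEquiv.refl ℂ _)

lemma on_con (i : ι) (w : Wi o i) : Orthonormal ℂ (fun k : K i => eb o (con i k w)) :=
  (eb o).orthonormal.comp _ (fun _ _ h => (con_inj i h).1)

open Classical in
/-- The embedding of `H i` at the word `w`. -/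
noncomputable def V (i : ι) (w : Wi o i) : H i →ₗᵢ[ℂ] FS o :=
  (on_con i w).orthogonalFamily.linearIsometry.comp (b i).repr.toLinearIsometry

lemma V_basis (i : ι) (w : Wi o i) (k : K i) : V b i w (b i k) = eb o (con i k w) := by
  classical
  change (on_con i w).orthogonalFamily.linearIsometry ((b i).repr (b i k)) = _
  rw [HilbertBasis.repr_self, OrthogonalFamily.linearIsometry_apply_single]
  simp [LinearIsometry.toSpanSingleton_apply]

/-- A continuous linear map vanishes if it vanishes on a Hilbert basis. -/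
lemma clm_zero {E F κ : Type} [NormedAddCommGroup E] [InnerProductSpace ℂ E]
    [NormedAddCommGroup F] [InnerProductSpace ℂ F]
    (c : HilbertBasis κ ℂ E) (T : E →L[ℂ] F) (h : ∀ k, T (c k) = 0) : T = 0 := by
  apply ContinuousLinearMap.ext_on (s := Set.range c)
  · rw [Submodule.dense_iff_topologicalClosure_eq_top]
    exact c.dense_span
  · rintro _ ⟨k, rfl⟩
    rw [h k]
    rfl

lemma V_orth (i : ι) : OrthogonalFamily ℂ (fun _ : Wi o i => H i) (V b i) := by
  intro w w' hww x y
  -- fix y, vary x
  have h1 : ∀ k k', ⟪V b i w (b i k), V b i w' (b i k')⟫_ℂ = 0 := by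
    intro k k'
    rw [V_basis, V_basis]
    exact (eb o).orthonormal.2 (fun h => hww (con_inj i h).2)
  have h2 : ∀ k, (innerSL ℂ (V b i w (b i k))).comp (V b i w').toContinuousLinearMap = 0 := by
    intro k
    apply clm_zero (b i)
    intro k'
    exact h1 k k'
  have h3 : ∀ k, ⟪V b i w' y, V b i w (b i k)⟫_ℂ = 0 := by
    intro k
    have h4 : ⟪V b i w (b i k), V b i w' y⟫_ℂ = 0 := by
      have := congrArg (fun T => T y) (h2 k)
      simpa using this
    rw [← inner_conj_symm, h4]
    simp
  have h5 : (innerSL ℂ (V b i w' y)).comp (V b i w).toContinuousLinearMap = 0 := by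
    apply clm_zero (b i)
    intro k
    exact h3 k
  have h6 : ⟪V b i w' y, V b i w x⟫_ℂ = 0 := by
    have := congrArg (fun T => T x) h5
    simpa using this
  rw [← inner_conj_symm, h6]
  simp

lemma V_total (i : ι) :
    ⊤ ≤ (⨆ w, LinearMap.range (V b i w).toLinearMap : Submodule ℂ (FS o)).topologicalClosure := by
  rw [← (eb o).dense_span]
  apply Submodule.topologicalClosure_mono
  rw [Submodule.span_le]
  rintro _ ⟨l, rfl⟩
  obtain ⟨k, w, rfl⟩ := con_surj i l
  rw [← V_basis b i w k]
  exact Submodule.mem_iSup_of_mem w ⟨b i k, rfl⟩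

/-- The decomposition of the free product space with respect to the first letter. -/
lemma V_sum (i : ι) : IsHilbertSum ℂ (fun _ : Wi o i => H i) (V b i) :=
  IsHilbertSum.mk (V_orth b i) (V_total b i)

/-- The left representation of the bounded operators of `H i`. -/
noncomputable def lamT (o : ∀ i, K i) (i : ι) : (H i →L[ℂ] H i) →⋆ₐ[ℂ] (FS o →L[ℂ] FS o) :=
  (V_sum (o := o) b i).linearIsometryEquiv.symm.conjStarAlgEquiv.toStarAlgHom.comp diagHom

lemma lamT_V (i : ι) (T : H i →L[ℂ] H i) (w : Wi o i) (x : H i) :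
    lamT b o i T (V b i w x) = V b i w (T x) := by
  classical
  have h1 : (V_sum b i).linearIsometryEquiv (V b i w x) = lp.single 2 w x := by
    rw [← (V_sum b i).linearIsometryEquiv_symm_apply_single x, LinearIsometryEquiv.apply_symm_apply]
  change (V_sum b i).linearIsometryEquiv.symm
    (diag T ((V_sum b i).linearIsometryEquiv (V b i w x))) = _
  rw [h1, diag_single, (V_sum b i).linearIsometryEquiv_symm_apply_single]

end space

end Pool.Agent.H94.RFP.Exist
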