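import Pool.Agent.H94.RFP.Exist

/-!
Existence of reduced free products, second part.
-/

set_option linter.unusedSectionVars false

namespace Pool.Agent.H94.RFP.Exist

open scoped InnerProductSpace

section space

variable {ι : Type} {K : ι → Type} {o : ∀ i, K i} {H : ι → Type}
  [∀ i, NormedAddCommGroup (H i)] [∀ i, InnerProductSpace ℂ (H i)] [∀ i, CompleteSpace (H i)]
  (b : ∀ i, HilbertBasis (K i) ℂ (H i))

lemma ok_nil : WordOK o [] := ⟨by simp, by simp⟩

/-- The vacuum vector. -/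
noncomputable def e0 (o : ∀ i, K i) : FS o := eb o ⟨[], ok_nil⟩

lemma notHead_nil (i : ι) : NotHead (K := K) i [] := by intro p hp; simp at hp

def PH (i : ι) (η : FS o) : Prop := ∀ l : Wd o, NotHead i l.1 → ⟪eb o l, η⟫_ℂ = 0
def QH (i : ι) (η : FS o) : Prop := ∀ l : Wd o, ¬ NotHead i l.1 → ⟪eb o l, η⟫_ℂ = 0

lemma ext_basis {E κ : Type} [NormedAddCommGroup E] [InnerProductSpace ℂ E]
    (c : HilbertBasis κ ℂ E) {x y : E} (h : ∀ k, ⟪c k, x⟫_ℂ = ⟪c k, y⟫_ℂ) : x = y := by
  apply c.repr.injective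
  ext k
  rw [c.repr_apply_apply, c.repr_apply_apply, h k]

lemma stepA (i : ι) (T : H i →L[ℂ] H i) (hT : ⟪b i (o i), T (b i (o i))⟫_ℂ = 0) (η : FS o)
    (hη : QH i η) : PH i (lamT b o i T η) := by
  intro l hl
  set w : Wi o i := ⟨l, hl⟩ with hw
  have hel : eb o l = V b i w (b i (o i)) := by rw [V_basis, con_base]
  have h1 : ⟪eb o l, lamT b o i T η⟫_ℂ = ⟪V b i w ((star T) (b i (o i))), η⟫_ℂ := by
    rw [hel, ← lamT_V, map_star, ContinuousLinearMap.star_eq_adjoint,
      ContinuousLinearMap.adjoint_inner_left]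
  rw [h1]
  set g : H i := ContinuousLinearMap.adjoint (V b i w).toContinuousLinearMap η with hg
  have h2 : ∀ x, ⟪V b i w x, η⟫_ℂ = ⟪x, g⟫_ℂ := by
    intro x
    rw [hg, ContinuousLinearMap.adjoint_inner_right]
    rfl
  have h3 : ∀ k, k ≠ o i → ⟪b i k, g⟫_ℂ = 0 := by
    intro k hk
    rw [← h2, V_basis]
    apply hη
    rw [con_ne hk]
    intro hcon
    exact hcon ⟨i, k⟩ (by simp) rfl
  have h4 : g = ⟪b i (o i), g⟫_ℂ • b i (o i) := by
    apply ext_basis (b i)
    intro k
    rw [inner_smul_right]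
    by_cases hk : k = o i
    · subst hk
      have : ⟪b i (o i), b i (o i)⟫_ℂ = 1 := by
        have := (b i).orthonormal.1 (o i)
        rw [inner_self_eq_norm_sq_to_K, this]
        simp
      rw [this, mul_one]
    · rw [h3 k hk, (b i).orthonormal.2 hk, mul_zero]
  rw [h2, h4, inner_smul_right]
  have h5 : ⟪(star T) (b i (o i)), b i (o i)⟫_ℂ = 0 := by
    rw [ContinuousLinearMap.star_eq_adjoint, ContinuousLinearMap.adjoint_inner_left]
    exact hT
  rw [h5, mul_zero]

lemma stepB {i j : ι} (hij : j ≠ i) (η : FS o) (hη : PH j η) : QH i η := by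
  intro l hl
  apply hη
  intro p hp
  by_contra hcon
  apply hl
  intro q hq
  have : p = q := by
    rw [Option.mem_def] at hp hq
    rw [hp] at hq
    exact Option.some.inj hq
  subst this
  rw [hcon]
  exact hij

lemma QH_e0 (i : ι) : QH i (e0 o) := by
  intro l hl
  apply (eb o).orthonormal.2
  intro h
  apply hl
  rw [h]
  exact notHead_nil i

/-- Products of centred operators along alternating lists. -/
lemma word_vec (L : List (Σ i, H i →L[ℂ] H i)) (p : Σ i, H i →L[ℂ] H i)
    (hch : (p :: L).IsChain (fun p q => p.1 ≠ q.1))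
    (hcen : ∀ q ∈ p :: L, ⟪b q.1 (o q.1), q.2 (b q.1 (o q.1))⟫_ℂ = 0) :
    PH p.1 ((((p :: L).map fun q => lamT b o q.1 q.2).prod) (e0 o)) := by
  induction L generalizing p with
  | nil =>
    simp only [List.map_cons, List.map_nil, List.prod_cons, List.prod_nil, mul_one]
    exact stepA b p.1 p.2 (hcen p (by simp)) _ (QH_e0 _)
  | cons q L ih =>
    have h1 := ih q hch.tail (fun r hr => hcen r (List.mem_cons_of_mem _ hr))
    rw [List.map_cons, List.prod_cons]
    change PH p.1 (lamT b o p.1 p.2 ((((q :: L).map fun q => lamT b o q.1 q.2).prod) (e0 o)))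
    apply stepA b p.1 p.2 (hcen p (by simp))
    apply stepB _ _ h1
    have := (List.isChain_cons_cons.1 hch).1
    exact this.symm

end space

lemma zero_of_closure {E F : Type} [NormedAddCommGroup E] [InnerProductSpace ℂ E]
    [NormedAddCommGroup F] [InnerProductSpace ℂ F] (T : E →L[ℂ] F) (s : Set E)
    (h : ∀ v ∈ s, T v = 0) (v : E) (hv : v ∈ closure s) : T v = 0 := by
  have hcl : IsClosed {u : E | T u = 0} := isClosed_eq T.continuous continuous_const
  exact hcl.closure_subset_iff.2 h hv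

/-! ### The reduced free product of represented algebras -/

section rep

variable {ι : Type} {K : ι → Type} {o : ∀ i, K i} {H : ι → Type}
  [∀ i, NormedAddCommGroup (H i)] [∀ i, InnerProductSpace ℂ (H i)] [∀ i, CompleteSpace (H i)]
  (b : ∀ i, HilbertBasis (K i) ℂ (H i))
  {A : ι → Type} [∀ i, CStarAlgebra (A i)] (rep : ∀ i, A i →⋆ₐ[ℂ] (H i →L[ℂ] H i))

/-- The representation of `A i` on the free product space. -/
noncomputable def lamA (o : ∀ i, K i) (i : ι) : A i →⋆ₐ[ℂ] (FS o →L[ℂ] FS o) :=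
  (lamT b o i).comp (rep i)

/-- The generated C*-algebra. -/
noncomputable def BB (o : ∀ i, K i) : StarSubalgebra ℂ (FS o →L[ℂ] FS o) :=
  (StarAlgebra.adjoin ℂ (⋃ i, Set.range (lamA b rep o i))).topologicalClosure

instance : IsClosed (BB b rep o : Set (FS o →L[ℂ] FS o)) :=
  StarSubalgebra.isClosed_topologicalClosure _

noncomputable instance : CStarAlgebra (BB b rep o) := StarSubalgebra.cstarAlgebra (BB b rep o)

lemma lamA_mem (i : ι) (a : A i) : lamA b rep o i a ∈ BB b rep o :=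
  StarSubalgebra.le_topologicalClosure _ (StarAlgebra.subset_adjoin ℂ _
    (Set.mem_iUnion.2 ⟨i, a, rfl⟩))

/-- The canonical embeddings. -/
noncomputable def lamB (o : ∀ i, K i) (i : ι) : A i →⋆ₐ[ℂ] BB b rep o :=
  StarAlgHom.codRestrict (lamA b rep o i) (BB b rep o) (lamA_mem b rep i)

lemma lamB_coe (i : ι) (a : A i) :
    ((lamB b rep o i a : BB b rep o) : FS o →L[ℂ] FS o) = lamA b rep o i a := rfl

/-- The free product functional. -/
noncomputable def psi (o : ∀ i, K i) : BB b rep o →L[ℂ] ℂ :=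
  LinearMap.mkContinuous
    { toFun := fun x => ⟪e0 o, (x : FS o →L[ℂ] FS o) (e0 o)⟫_ℂ
      map_add' := fun x y => by
        change ⟪e0 o, ((x : FS o →L[ℂ] FS o) + (y : FS o →L[ℂ] FS o)) (e0 o)⟫_ℂ = _
        rw [add_apply, inner_add_right]
      map_smul' := fun c x => by
        change ⟪e0 o, (c • (x : FS o →L[ℂ] FS o)) (e0 o)⟫_ℂ = _
        rw [smul_apply, inner_smul_right]
        rfl } 1
    (fun x => by
      change ‖⟪e0 o, (x : FS o →L[ℂ] FS o) (e0 o)⟫_ℂ‖ ≤ 1 * ‖(x : FS o →L[ℂ] FS o)‖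
      have hn : ‖e0 o‖ = 1 := (eb o).orthonormal.1 _
      calc ‖⟪e0 o, (x : FS o →L[ℂ] FS o) (e0 o)⟫_ℂ‖
          ≤ ‖e0 o‖ * ‖(x : FS o →L[ℂ] FS o) (e0 o)‖ := norm_inner_le_norm _ _
        _ ≤ ‖e0 o‖ * (‖(x : FS o →L[ℂ] FS o)‖ * ‖e0 o‖) := by
          gcongr
          exact ContinuousLinearMap.le_opNorm _ _
        _ = _ := by rw [hn]; ring)

lemma psi_apply (x : BB b rep o) : psi b rep o x = ⟪e0 o, (x : FS o →L[ℂ] FS o) (e0 o)⟫_ℂ := rfl

lemma psi_state : IsState (psi b rep o) := by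
  constructor
  · rw [psi_apply]
    change ⟪e0 o, e0 o⟫_ℂ = 1
    have : ‖e0 o‖ = 1 := (eb o).orthonormal.1 _
    rw [inner_self_eq_norm_sq_to_K, this]
    simp
  · intro a
    rw [psi_apply]
    have : ⟪e0 o, ((star a * a : BB b rep o) : FS o →L[ℂ] FS o) (e0 o)⟫_ℂ =
        ⟪(a : FS o →L[ℂ] FS o) (e0 o), (a : FS o →L[ℂ] FS o) (e0 o)⟫_ℂ := by
      change ⟪e0 o, (star (a : FS o →L[ℂ] FS o)) ((a : FS o →L[ℂ] FS o) (e0 o))⟫_ℂ = _
      rw [ContinuousLinearMap.star_eq_adjoint, ContinuousLinearMap.adjoint_inner_right]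
    rw [this]
    constructor
    · exact inner_self_nonneg (𝕜 := ℂ)
    · exact inner_self_im (𝕜 := ℂ) _

/-- The orbit of the vacuum. -/
noncomputable def orb (o : ∀ i, K i) : Set (FS o) :=
  Set.range (fun x : BB b rep o => (x : FS o →L[ℂ] FS o) (e0 o))

variable {b rep}

/-- Cyclicity of the vacuum. -/
lemma cyclic (hcyc : ∀ i, Dense (Set.range fun a : A i => rep i a (b i (o i)))) (l : Wd o) :
    eb o l ∈ closure (orb b rep o) := by
  obtain ⟨l, hl⟩ := l
  induction l with
  | nil =>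
    apply subset_closure
    exact ⟨1, rfl⟩
  | cons p t ih =>
    have ht : WordOK o t := ⟨hl.1.tail, fun q hq => hl.2 q (List.mem_cons_of_mem _ hq)⟩
    have hn : NotHead p.1 t := by
      intro q hq
      have := (List.isChain_cons.1 hl.1).1 q hq
      exact this.symm
    have hne : p.2 ≠ o p.1 := hl.2 p (by simp)
    have ih' := ih ht
    set M := closure (orb b rep o) with hM
    -- invariance of `M`
    have hinv : ∀ (a : A p.1) (v : FS o), v ∈ M → lamA b rep o p.1 a v ∈ M := by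
      intro a v hv
      have hcont : Continuous fun v : FS o => lamA b rep o p.1 a v :=
        (lamA b rep o p.1 a).continuous
      have := hcont.continuousOn.image_closure (s := orb b rep o) ⟨v, hv, rfl⟩
      refine closure_mono ?_ this
      rintro _ ⟨_, ⟨x, rfl⟩, rfl⟩
      exact ⟨lamB b rep o p.1 a * x, rfl⟩
    let w : Wi o p.1 := ⟨⟨t, ht⟩, hn⟩
    have hw : V b p.1 w (b p.1 (o p.1)) = eb o ⟨t, ht⟩ := by rw [V_basis, con_base]
    have h1 : ∀ a : A p.1, V b p.1 w (rep p.1 a (b p.1 (o p.1))) ∈ M := by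
      intro a
      rw [← lamT_V, hw]
      exact hinv a _ ih'
    have h2 : IsClosed {x : H p.1 | V b p.1 w x ∈ M} :=
      isClosed_closure.preimage (V b p.1 w).continuous
    have h3 : (Set.range fun a : A p.1 => rep p.1 a (b p.1 (o p.1))) ⊆
        {x : H p.1 | V b p.1 w x ∈ M} := by
      rintro _ ⟨a, rfl⟩
      exact h1 a
    have h4 : V b p.1 w (b p.1 p.2) ∈ M := h2.closure_subset_iff.2 h3 (hcyc p.1 (b p.1 p.2))
    rw [V_basis, con_ne hne] at h4
    exact h4

/-- **Existence of the reduced free product of represented algebras.** -/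
theorem exists_rep {φ : ∀ i, A i →L[ℂ] ℂ}
    (hφ : ∀ i a, φ i a = ⟪b i (o i), rep i a (b i (o i))⟫_ℂ)
    (hcyc : ∀ i, Dense (Set.range fun a : A i => rep i a (b i (o i)))) :
    IsReducedFreeProduct φ (psi b rep o) (lamB b rep o) := by
  refine ⟨psi_state b rep, ?_, ?_, ?_, ?_⟩
  · intro i a
    rw [psi_apply, lamB_coe, hφ]
    let w : Wi o i := ⟨⟨[], ok_nil⟩, notHead_nil i⟩
    have hw : e0 o = V b i w (b i (o i)) := by rw [V_basis, con_base]; rfl
    change ⟪e0 o, lamT b o i (rep i a) (e0 o)⟫_ℂ = _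
    rw [hw, lamT_V, LinearIsometry.inner_map_map]
  · intro l hne hch hcen
    obtain ⟨p, L, rfl⟩ : ∃ p L, l = p :: L := by
      cases l with
      | nil => exact absurd rfl hne
      | cons p L => exact ⟨p, L, rfl⟩
    rw [psi_apply]
    let F : (Σ i, A i) → (Σ i, H i →L[ℂ] H i) := fun q => ⟨q.1, rep q.1 q.2⟩
    have h1 : ((((p :: L).map fun q => lamB b rep o q.1 q.2).prod : BB b rep o) :
        FS o →L[ℂ] FS o) = (((F p :: L.map F).map fun q => lamT b o q.1 q.2).prod) := by
      have h2 : ∀ M : List (Σ i, A i), (((M.map fun q => lamB b rep o q.1 q.2).prod : BB b rep o) :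
          FS o →L[ℂ] FS o) = (((M.map F).map fun q => lamT b o q.1 q.2).prod) := by
        intro M
        induction M with
        | nil => rfl
        | cons q M ih =>
          rw [List.map_cons, List.prod_cons, List.map_cons, List.map_cons, List.prod_cons, ← ih]
          rfl
      exact h2 (p :: L)
    rw [h1]
    have h3 := word_vec b (L.map F) (F p) (o := o) ?_ ?_
    · exact h3 ⟨[], ok_nil⟩ (notHead_nil _)
    · have : F p :: L.map F = (p :: L).map F := rfl
      rw [this, List.isChain_map]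
      exact hch
    · intro q hq
      have : F p :: L.map F = (p :: L).map F := rfl
      rw [this, List.mem_map] at hq
      obtain ⟨r, hr, rfl⟩ := hq
      have := hcen r hr
      rw [hφ] at this
      exact this
  · intro x
    rw [closure_subtype]
    have h1 : (x : FS o →L[ℂ] FS o) ∈ closure ((StarAlgebra.adjoin ℂ (⋃ i, Set.range (lamA b rep o i)) :
        StarSubalgebra ℂ (FS o →L[ℂ] FS o)) : Set (FS o →L[ℂ] FS o)) := x.2
    refine closure_mono ?_ h1
    intro y hy
    have h2 : StarAlgebra.adjoin ℂ (⋃ i, Set.range (lamA b rep o i)) ≤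
        (StarAlgebra.adjoin ℂ (⋃ i, Set.range (lamB b rep o i))).map (BB b rep o).subtype := by
      apply StarAlgebra.adjoin_le
      intro z hz
      obtain ⟨i, a, rfl⟩ := by simpa using hz
      exact ⟨lamB b rep o i a, StarAlgebra.subset_adjoin ℂ _ (Set.mem_iUnion.2 ⟨i, a, rfl⟩), rfl⟩
    obtain ⟨z, hz, rfl⟩ := h2 hy
    exact ⟨z, hz, rfl⟩
  · intro x hx
    -- dense orbit
    have hdense : ∀ v : FS o, (∀ y : BB b rep o, ⟪(y : FS o →L[ℂ] FS o) (e0 o), v⟫_ℂ = 0) → v = 0 := by
      intro v hv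
      apply ext_basis (eb o)
      intro l
      rw [inner_zero_right]
      have hcl : IsClosed {u : FS o | ⟪u, v⟫_ℂ = 0} :=
        isClosed_eq (Continuous.inner continuous_id continuous_const) continuous_const
      have hsub : orb b rep o ⊆ {u : FS o | ⟪u, v⟫_ℂ = 0} := by
        rintro _ ⟨y, rfl⟩
        exact hv y
      exact hcl.closure_subset_iff.2 hsub (cyclic hcyc l)
    have h1 : ∀ z : BB b rep o, (x : FS o →L[ℂ] FS o) ((z : FS o →L[ℂ] FS o) (e0 o)) = 0 := by
      intro z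
      apply hdense
      intro y
      have h2 := hx (star y) z
      rw [psi_apply] at h2
      change ⟪e0 o, (star (y : FS o →L[ℂ] FS o)) ((x : FS o →L[ℂ] FS o)
        ((z : FS o →L[ℂ] FS o) (e0 o)))⟫_ℂ = 0 at h2
      rwa [ContinuousLinearMap.star_eq_adjoint, ContinuousLinearMap.adjoint_inner_right] at h2
    have key : ∀ l, (x : FS o →L[ℂ] FS o) (eb o l) = 0 := fun l =>
      zero_of_closure (x : FS o →L[ℂ] FS o) (orb b rep o) (by rintro _ ⟨y, rfl⟩; exact h1 y) _
        (cyclic (b := b) (rep := rep) hcyc l)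
    have h3 : (x : FS o →L[ℂ] FS o) = 0 := clm_zero (eb o) (x : FS o →L[ℂ] FS o) key
    exact Subtype.ext h3

end rep

end Pool.Agent.H94.RFP.Exist
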