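import Pool.Agent.H94.RFP.Cuntz

/-!
The Cuntz algebra on the full Fock space over a countable set.
-/

namespace Pool.Agent.H94.RFP

open scoped InnerProductSpace

/-- The full Fock space `ℓ²(List ℕ)`. -/
noncomputable abbrev Fock := lp (fun _ : List ℕ => ℂ) 2

/-- Its canonical basis. -/
noncomputable def bs : HilbertBasis (List ℕ) ℂ Fock := HilbertBasis.ofRepr (LinearIsometryEquiv.refl ℂ _)

lemma orthonormal_shift (n : ℕ) : Orthonormal ℂ (fun w : List ℕ => bs (n :: w)) :=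
  bs.orthonormal.comp _ (fun a b h => by simpa using h)

/-- The creation isometry. -/
noncomputable def Siso (n : ℕ) : Fock →ₗᵢ[ℂ] Fock :=
  (orthonormal_shift n).orthogonalFamily.linearIsometry

/-- The creation operator. -/
noncomputable def S (n : ℕ) : Fock →L[ℂ] Fock := (Siso n).toContinuousLinearMap

lemma bs_eq (w : List ℕ) : bs w = lp.single 2 w 1 := by
  have := bs.repr_symm_single w
  rw [← this]
  rfl

lemma S_bs (n : ℕ) (w : List ℕ) : S n (bs w) = bs (n :: w) := by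
  rw [bs_eq w]
  change (orthonormal_shift n).orthogonalFamily.linearIsometry (lp.single 2 w 1) = _
  rw [OrthogonalFamily.linearIsometry_apply_single]
  simp [LinearIsometry.toSpanSingleton_apply]

lemma S_iso (n : ℕ) : star (S n) * S n = 1 := by
  rw [ContinuousLinearMap.star_eq_adjoint]
  exact (ContinuousLinearMap.norm_map_iff_adjoint_comp_self (S n)).1 (fun x => (Siso n).norm_map x)

/-- Two operators agree if their matrix coefficients do. -/
lemma ext_bs {x y : Fock →L[ℂ] Fock} (h : ∀ v w, ⟪bs v, x (bs w)⟫_ℂ = ⟪bs v, y (bs w)⟫_ℂ) :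
    x = y := by
  apply ContinuousLinearMap.ext_on (s := Set.range bs)
  · have := bs.dense_span
    rw [Submodule.dense_iff_topologicalClosure_eq_top]
    exact this
  · rintro _ ⟨w, rfl⟩
    rw [← sub_eq_zero]
    apply bs.repr.injective
    ext v
    rw [bs.repr_apply_apply, inner_sub_right, h v w]
    simp

lemma S_orth (m n : ℕ) (hmn : m ≠ n) : star (S m) * S n = 0 := by
  apply ext_bs
  intro v w
  rw [ContinuousLinearMap.star_eq_adjoint]
  change ⟪bs v, ContinuousLinearMap.adjoint (S m) (S n (bs w))⟫_ℂ = ⟪bs v, (0 : Fock)⟫_ℂ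
  rw [ContinuousLinearMap.adjoint_inner_right, S_bs, S_bs, inner_zero_right]
  exact bs.orthonormal.2 (by simp [hmn])

lemma wd_bs (l w : List ℕ) : wd S l (bs w) = bs (l ++ w) := by
  induction l with
  | nil => simp [wd_nil]
  | cons n l ih =>
    rw [wd_cons]
    change S n (wd S l (bs w)) = _
    rw [ih, S_bs]
    rfl

/-- The algebra `O_∞` on Fock space. -/
noncomputable def OInf : StarSubalgebra ℂ (Fock →L[ℂ] Fock) :=
  (StarAlgebra.adjoin ℂ (Set.range S)).topologicalClosure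

instance : IsClosed (OInf : Set (Fock →L[ℂ] Fock)) :=
  StarSubalgebra.isClosed_topologicalClosure _

noncomputable instance : CStarAlgebra OInf := StarSubalgebra.cstarAlgebra OInf

/-- The generators, as elements of `O_∞`. -/
noncomputable def gen (n : ℕ) : OInf :=
  ⟨S n, StarSubalgebra.le_topologicalClosure _ (StarAlgebra.subset_adjoin ℂ _ ⟨n, rfl⟩)⟩

lemma gen_dense : Dense ((StarAlgebra.adjoin ℂ (Set.range gen) : StarSubalgebra ℂ OInf) : Set OInf) := by
  intro x
  rw [closure_subtype]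
  have h1 : (x : Fock →L[ℂ] Fock) ∈ closure ((StarAlgebra.adjoin ℂ (Set.range S) :
      StarSubalgebra ℂ (Fock →L[ℂ] Fock)) : Set (Fock →L[ℂ] Fock)) := x.2
  refine closure_mono ?_ h1
  intro y hy
  have h2 : StarAlgebra.adjoin ℂ (Set.range S) ≤
      (StarAlgebra.adjoin ℂ (Set.range gen)).map OInf.subtype := by
    apply StarAlgebra.adjoin_le
    rintro _ ⟨n, rfl⟩
    exact ⟨gen n, StarAlgebra.subset_adjoin ℂ _ ⟨n, rfl⟩, rfl⟩
  obtain ⟨z, hz, rfl⟩ := h2 hy
  exact ⟨z, hz, rfl⟩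

lemma gen_cuntz : IsCuntzInfty OInf gen := by
  refine ⟨fun n => ?_, fun m n hmn => ?_, gen_dense⟩
  · apply Subtype.ext
    exact S_iso n
  · apply Subtype.ext
    exact S_orth m n hmn

/-- The vacuum functional. -/
noncomputable def vac : OInf →L[ℂ] ℂ :=
  LinearMap.mkContinuous
    { toFun := fun x => ⟪bs [], (x : Fock →L[ℂ] Fock) (bs [])⟫_ℂ
      map_add' := fun x y => by
        change ⟪bs [], ((x : Fock →L[ℂ] Fock) + (y : Fock →L[ℂ] Fock)) (bs [])⟫_ℂ = _
        rw [add_apply, inner_add_right]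
      map_smul' := fun c x => by
        change ⟪bs [], (c • (x : Fock →L[ℂ] Fock)) (bs [])⟫_ℂ = _
        rw [smul_apply, inner_smul_right]
        rfl } 1
    (fun x => by
      change ‖⟪bs [], (x : Fock →L[ℂ] Fock) (bs [])⟫_ℂ‖ ≤ 1 * ‖(x : Fock →L[ℂ] Fock)‖
      have hn : ‖bs []‖ = 1 := bs.orthonormal.1 []
      calc ‖⟪bs [], (x : Fock →L[ℂ] Fock) (bs [])⟫_ℂ‖
          ≤ ‖bs []‖ * ‖(x : Fock →L[ℂ] Fock) (bs [])‖ := norm_inner_le_norm _ _
        _ ≤ ‖bs []‖ * (‖(x : Fock →L[ℂ] Fock)‖ * ‖bs []‖) := by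
          gcongr
          exact ContinuousLinearMap.le_opNorm _ _
        _ = _ := by rw [hn]; ring)

lemma vac_apply (x : OInf) : vac x = ⟪bs [], (x : Fock →L[ℂ] Fock) (bs [])⟫_ℂ := rfl

lemma vac_state : IsState vac := by
  constructor
  · rw [vac_apply]
    change ⟪bs [], bs []⟫_ℂ = 1
    have := bs.orthonormal.1 []
    rw [inner_self_eq_norm_sq_to_K, this]
    simp
  · intro a
    rw [vac_apply]
    have : ⟪bs [], ((star a * a : OInf) : Fock →L[ℂ] Fock) (bs [])⟫_ℂ =
        ⟪(a : Fock →L[ℂ] Fock) (bs []), (a : Fock →L[ℂ] Fock) (bs [])⟫_ℂ := by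
      change ⟪bs [], (star (a : Fock →L[ℂ] Fock)) ((a : Fock →L[ℂ] Fock) (bs []))⟫_ℂ = _
      rw [ContinuousLinearMap.star_eq_adjoint, ContinuousLinearMap.adjoint_inner_right]
    rw [this]
    constructor
    · exact inner_self_nonneg (𝕜 := ℂ)
    · exact inner_self_im (𝕜 := ℂ) _

lemma vac_range (n : ℕ) : vac (gen n * star (gen n)) = 0 := by
  rw [vac_apply]
  change ⟪bs [], S n ((star (S n)) (bs []))⟫_ℂ = 0
  rw [ContinuousLinearMap.star_eq_adjoint]
  have h : ContinuousLinearMap.adjoint (S n) (bs []) = 0 := by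
    apply bs.repr.injective
    ext v
    rw [bs.repr_apply_apply, ContinuousLinearMap.adjoint_inner_right, S_bs]
    simp only [map_zero]
    exact bs.orthonormal.2 (by simp)
  rw [h]
  simp

lemma gen_wd (l : List ℕ) : ((wd gen l : OInf) : Fock →L[ℂ] Fock) = wd S l := by
  induction l with
  | nil => rfl
  | cons n l ih =>
    rw [wd_cons, wd_cons, ← ih]
    rfl

lemma vac_norm_le (x : OInf) : ‖vac x‖ ≤ ‖x‖ := by
  have h : ‖vac‖ ≤ 1 := LinearMap.mkContinuous_norm_le _ zero_le_one _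
  calc ‖vac x‖ ≤ ‖vac‖ * ‖x‖ := vac.le_opNorm x
    _ ≤ 1 * ‖x‖ := by gcongr
    _ = ‖x‖ := one_mul _

lemma vac_sep (x : OInf) (hx : x ≠ 0) : ∃ v w, vac (star (wd gen v) * x * wd gen w) ≠ 0 := by
  obtain ⟨v, w, hvw⟩ : ∃ v w, ⟪bs v, (x : Fock →L[ℂ] Fock) (bs w)⟫_ℂ ≠ 0 := by
    by_contra hcon
    push Not at hcon
    apply hx
    apply Subtype.ext
    apply ext_bs
    intro v w
    rw [hcon v w]
    simp
  refine ⟨v, w, ?_⟩
  rw [vac_apply]
  have e1 : ⟪bs [], ((star (wd gen v) * x * wd gen w : OInf) : Fock →L[ℂ] Fock) (bs [])⟫_ℂ =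
      ⟪bs v, (x : Fock →L[ℂ] Fock) (bs w)⟫_ℂ := by
    have e2 : ((star (wd gen v) * x * wd gen w : OInf) : Fock →L[ℂ] Fock) (bs []) =
        (star ((wd gen v : OInf) : Fock →L[ℂ] Fock)) ((x : Fock →L[ℂ] Fock)
          (((wd gen w : OInf) : Fock →L[ℂ] Fock) (bs []))) := rfl
    rw [e2, ContinuousLinearMap.star_eq_adjoint, ContinuousLinearMap.adjoint_inner_right,
      gen_wd, gen_wd, wd_bs, wd_bs, List.append_nil, List.append_nil]
  rw [e1]
  exact hvw

/-- `O_∞` on Fock space is purely infinite and simple (Cuntz). -/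
theorem oInf_pis : PurelyInfiniteSimple OInf :=
  pis_of_separating gen_cuntz vac_state vac_range vac_norm_le vac_sep

end Pool.Agent.H94.RFP
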