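import Pool.Agent.H94.RFP.Exist2

/-!
Existence of reduced free products for arbitrary states, through the GNS construction.
-/

namespace Pool.Agent.H94.RFP.Exist

open scoped InnerProductSpace ComplexOrder

/-- GNS data for a state. -/
structure Gns {A : Type} [CStarAlgebra A] (φ : A →L[ℂ] ℂ) where
  H : Type
  i1 : NormedAddCommGroup H
  i2 : InnerProductSpace ℂ H
  i3 : CompleteSpace H
  rep : A →⋆ₐ[ℂ] (H →L[ℂ] H)
  K : Type
  o : K
  b : HilbertBasis K ℂ H
  vec : ∀ a, φ a = ⟪b o, rep a (b o)⟫_ℂ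
  cyc : Dense (Set.range fun a => rep a (b o))

theorem gns_exists {A : Type} [CStarAlgebra A] (φ : A →L[ℂ] ℂ) (hφ : IsState φ) :
    Nonempty (Gns φ) := by
  letI : PartialOrder A := CStarAlgebra.spectralOrder A
  haveI : StarOrderedRing A := CStarAlgebra.spectralOrderedRing A
  let f : A →ₚ[ℂ] ℂ := PositiveLinearMap.mk₀ φ.toLinearMap (by
    intro x hx
    obtain ⟨y, rfl⟩ := CStarAlgebra.nonneg_iff_eq_star_mul_self.mp hx
    have h := hφ.2 y
    change 0 ≤ φ (star y * y)
    rw [RCLike.nonneg_iff]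
    exact h)
  have hf : ∀ a, f a = φ a := fun a => rfl
  let xi : f.GNS := ((f.toPreGNS (1 : A) : f.PreGNS) : f.GNS)
  have hvec : ∀ a, φ a = ⟪xi, f.gnsStarAlgHom a xi⟫_ℂ := by
    intro a
    have h1 : f.gnsStarAlgHom a xi = ((f.leftMulMapPreGNS a (f.toPreGNS 1) : f.PreGNS) : f.GNS) := by
      change f.gnsNonUnitalStarAlgHom a ((f.toPreGNS (1 : A) : f.PreGNS) : f.GNS) = _
      rw [f.gnsNonUnitalStarAlgHom_apply_coe]
    rw [h1]
    change _ = ⟪((f.toPreGNS (1 : A) : f.PreGNS) : f.GNS), _⟫_ℂ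
    rw [UniformSpace.Completion.inner_coe, PositiveLinearMap.preGNS_inner_def]
    simp [hf]
  have hnorm : ‖xi‖ = 1 := by
    have h1 := hvec 1
    rw [hφ.1, map_one] at h1
    change (1 : ℂ) = ⟪xi, xi⟫_ℂ at h1
    rw [inner_self_eq_norm_sq_to_K] at h1
    have h3 : ((‖xi‖ ^ 2 : ℝ) : ℂ) = ((1 : ℝ) : ℂ) := by
      push_cast
      exact h1.symm
    have h2 : ‖xi‖ ^ 2 = 1 := Complex.ofReal_injective h3
    nlinarith [norm_nonneg xi]
  have hcyc : Dense (Set.range fun a => f.gnsStarAlgHom a xi) := by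
    have h1 : Set.range (fun a => f.gnsStarAlgHom a xi) =
        Set.range (fun p : f.PreGNS => (p : f.GNS)) := by
      ext v
      constructor
      · rintro ⟨a, rfl⟩
        refine ⟨f.leftMulMapPreGNS a (f.toPreGNS 1), ?_⟩
        change _ = f.gnsNonUnitalStarAlgHom a ((f.toPreGNS (1 : A) : f.PreGNS) : f.GNS)
        rw [f.gnsNonUnitalStarAlgHom_apply_coe]
      · rintro ⟨p, rfl⟩
        refine ⟨f.ofPreGNS p, ?_⟩
        change f.gnsNonUnitalStarAlgHom _ ((f.toPreGNS (1 : A) : f.PreGNS) : f.GNS) = _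
        rw [f.gnsNonUnitalStarAlgHom_apply_coe]
        simp
    rw [h1]
    exact UniformSpace.Completion.denseRange_coe
  have horth : Orthonormal ℂ ((↑) : ({xi} : Set f.GNS) → f.GNS) := by
    constructor
    · rintro ⟨v, hv⟩
      simp only [Set.mem_singleton_iff] at hv
      subst hv
      exact hnorm
    · rintro ⟨v, hv⟩ ⟨w, hw⟩ hne
      simp only [Set.mem_singleton_iff] at hv hw
      subst hv
      subst hw
      exact absurd rfl hne
  obtain ⟨w, b, hsub, hb⟩ := horth.exists_hilbertBasis_extension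
  have hmem : xi ∈ w := hsub (Set.mem_singleton _)
  have hbx : b ⟨xi, hmem⟩ = xi := by rw [hb]
  exact ⟨{ H := f.GNS
           i1 := inferInstance
           i2 := inferInstance
           i3 := inferInstance
           rep := f.gnsStarAlgHom
           K := w
           o := ⟨xi, hmem⟩
           b := b
           vec := by intro a; rw [hbx]; exact hvec a
           cyc := by rw [hbx]; exact hcyc }⟩

/-- **Existence of reduced free products.** -/
theorem exists_rfp {ι : Type} (A : ι → Type) [∀ i, CStarAlgebra (A i)] (φ : ∀ i, A i →L[ℂ] ℂ)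
    (hφ : ∀ i, IsState (φ i)) :
    ∃ (B : Type) (_ : CStarAlgebra B) (ψ : B →L[ℂ] ℂ) (lam : ∀ i, A i →⋆ₐ[ℂ] B),
      IsReducedFreeProduct φ ψ lam := by
  have g : ∀ i, Gns (φ i) := fun i => (gns_exists (φ i) (hφ i)).some
  letI : ∀ i, NormedAddCommGroup ((g i).H) := fun i => (g i).i1
  letI : ∀ i, InnerProductSpace ℂ ((g i).H) := fun i => (g i).i2
  haveI : ∀ i, CompleteSpace ((g i).H) := fun i => (g i).i3
  let b : ∀ i, HilbertBasis ((g i).K) ℂ ((g i).H) := fun i => (g i).b
  let rep : ∀ i, A i →⋆ₐ[ℂ] ((g i).H →L[ℂ] (g i).H) := fun i => (g i).rep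
  let o : ∀ i, (g i).K := fun i => (g i).o
  exact ⟨BB b rep o, inferInstance, psi b rep o, lamB b rep o,
    exists_rep (b := b) (rep := rep) (o := o) (φ := φ) (fun i a => (g i).vec a) (fun i => (g i).cyc)⟩

end Pool.Agent.H94.RFP.Exist
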