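import Pool.Agent.H94.RFP.Fock

/-!
The counterexample.
-/

namespace Pool.Agent.H94.RFP

section omega

variable {C : Type*} [CStarAlgebra C]

/-- The compression `x ↦ a* x a`. -/
noncomputable def compr (a : C) : C →L[ℂ] C :=
  (ContinuousLinearMap.mul ℂ C (star a)).comp ((ContinuousLinearMap.mul ℂ C).flip a)

lemma compr_apply (a x : C) : compr a x = star a * x * a := by
  simp [compr, mul_assoc]

/-- The average of two compressions of a functional. -/
noncomputable def om (σ : C →L[ℂ] ℂ) (s : ℕ → C) : C →L[ℂ] ℂ :=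
  (1 / 2 : ℂ) • (σ.comp (compr (s 0)) + σ.comp (compr (s 1)))

lemma om_apply (σ : C →L[ℂ] ℂ) (s : ℕ → C) (x : C) :
    om σ s x = (1 / 2) * (σ (star (s 0) * x * s 0) + σ (star (s 1) * x * s 1)) := by
  simp [om, compr_apply]
  ring

lemma om_state {σ : C →L[ℂ] ℂ} {s : ℕ → C} (hs : IsCuntzInfty C s) (hσ : IsState σ) :
    IsState (om σ s) := by
  constructor
  · rw [om_apply, mul_one, mul_one, hs.1, hs.1, hσ.1]
    norm_num
  · intro a
    have h : ∀ i, star (s i) * (star a * a) * s i = star (a * s i) * (a * s i) := by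
      intro i
      rw [star_mul]
      simp only [mul_assoc]
    rw [om_apply, h, h]
    have h0 := hσ.2 (a * s 0)
    have h1 := hσ.2 (a * s 1)
    generalize σ (star (a * s 0) * (a * s 0)) = z0 at h0 ⊢
    generalize σ (star (a * s 1) * (a * s 1)) = z1 at h1 ⊢
    have hre : ((1 / 2 : ℂ) * (z0 + z1)).re = (z0.re + z1.re) / 2 := by
      simp [Complex.mul_re]; ring
    have him : ((1 / 2 : ℂ) * (z0 + z1)).im = (z0.im + z1.im) / 2 := by
      simp [Complex.mul_im]; ring
    rw [hre, him, h0.2, h1.2]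
    constructor
    · have := h0.1
      have := h1.1
      linarith
    · norm_num

/-- The flip unitary. -/
noncomputable def uu (s : ℕ → C) : C :=
  s 0 * star (s 1) + s 1 * star (s 0) + (1 - s 0 * star (s 0) - s 1 * star (s 1))

lemma uu_star (s : ℕ → C) : star (uu s) = uu s := by
  simp only [uu, star_add, star_sub, star_mul, star_star, star_one]
  abel

lemma uu_s0 {s : ℕ → C} (hs : IsCuntzInfty C s) : uu s * s 0 = s 1 := by
  have h0 := hs.1 0
  have h10 := hs.2.1 1 0 (by norm_num)
  simp only [uu, add_mul, sub_mul, mul_assoc, h0, h10, mul_zero, mul_one, one_mul]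
  abel

lemma uu_s1 {s : ℕ → C} (hs : IsCuntzInfty C s) : uu s * s 1 = s 0 := by
  have h1 := hs.1 1
  have h01 := hs.2.1 0 1 (by norm_num)
  simp only [uu, add_mul, sub_mul, mul_assoc, h1, h01, mul_zero, mul_one, one_mul]
  abel

lemma uu_unitary {s : ℕ → C} (hs : IsCuntzInfty C s) : star (uu s) * uu s = 1 := by
  rw [uu_star]
  have e : uu s * uu s = uu s * s 0 * star (s 1) + uu s * s 1 * star (s 0)
      + (uu s - uu s * s 0 * star (s 0) - uu s * s 1 * star (s 1)) := by
    conv_lhs => rw [show uu s * uu s = uu s * (s 0 * star (s 1) + s 1 * star (s 0) +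
      (1 - s 0 * star (s 0) - s 1 * star (s 1))) from rfl]
    simp only [mul_add, mul_sub, mul_one, mul_assoc]
  rw [e, uu_s0 hs, uu_s1 hs]
  unfold uu
  abel

lemma uu_om {σ : C →L[ℂ] ℂ} {s : ℕ → C} (hs : IsCuntzInfty C s) (x : C) :
    om σ s (uu s * x) = om σ s (x * uu s) := by
  have hl0 : star (s 0) * uu s = star (s 1) := by
    have := congrArg star (uu_s0 hs)
    rwa [star_mul, uu_star] at this
  have hl1 : star (s 1) * uu s = star (s 0) := by
    have := congrArg star (uu_s1 hs)
    rwa [star_mul, uu_star] at this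
  rw [om_apply, om_apply]
  have e1 : star (s 0) * (uu s * x) * s 0 = star (s 1) * x * s 0 := by
    rw [← mul_assoc, hl0]
  have e2 : star (s 1) * (uu s * x) * s 1 = star (s 0) * x * s 1 := by
    rw [← mul_assoc, hl1]
  have e3 : star (s 0) * (x * uu s) * s 0 = star (s 0) * x * s 1 := by
    rw [← mul_assoc (star (s 0)), mul_assoc, uu_s0 hs]
  have e4 : star (s 1) * (x * uu s) * s 1 = star (s 1) * x * s 0 := by
    rw [← mul_assoc (star (s 1)), mul_assoc, uu_s1 hs]
  rw [e1, e2, e3, e4]
  ring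

lemma uu_zero {σ : C →L[ℂ] ℂ} {s : ℕ → C} (hs : IsCuntzInfty C s) : om σ s (uu s) = 0 := by
  rw [om_apply, mul_assoc, uu_s0 hs, mul_assoc, uu_s1 hs, hs.2.1 0 1 (by norm_num),
    hs.2.1 1 0 (by norm_num)]
  simp

lemma separable {s : ℕ → C} (hs : IsCuntzInfty C s) : TopologicalSpace.SeparableSpace C := by
  have h1 : TopologicalSpace.IsSeparable
      ((Submodule.span ℂ {x : C | ∃ μ ν, x = wd s μ * star (wd s ν)} : Submodule ℂ C) : Set C) := by
    apply TopologicalSpace.IsSeparable.span
    have h2 : {x : C | ∃ μ ν, x = wd s μ * star (wd s ν)} =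
        Set.range (fun p : List ℕ × List ℕ => wd s p.1 * star (wd s p.2)) := by
      ext x
      constructor
      · rintro ⟨μ, ν, rfl⟩
        exact ⟨(μ, ν), rfl⟩
      · rintro ⟨⟨μ, ν⟩, rfl⟩
        exact ⟨μ, ν, rfl⟩
    rw [h2]
    exact (Set.countable_range _).isSeparable
  rw [← TopologicalSpace.isSeparable_univ_iff]
  refine (h1.closure).mono ?_
  intro x _
  exact closure_mono (fun y hy => adjoin_le_spanT hs.1 hs.2.1 y hy) (hs.2.2 x)

end omega

end Pool.Agent.H94.RFP
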