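import Pool.Agent.H94.RFP.Defs

/-!
Spanning of a reduced free product by alternating centred words.
-/

namespace Pool.Agent.H94.RFP

section words

variable {ι : Type*} {A : ι → Type*} [∀ i, CStarAlgebra (A i)]
    {φ : ∀ i, A i →L[ℂ] ℂ} {B : Type*} [CStarAlgebra B] {ψ : B →L[ℂ] ℂ}
    {lam : ∀ i, A i →⋆ₐ[ℂ] B}

/-- Alternating centred lists. -/
def Good (φ : ∀ i, A i →L[ℂ] ℂ) (l : List (Σ i, A i)) : Prop :=
  l.IsChain (fun p q => p.1 ≠ q.1) ∧ ∀ p ∈ l, φ p.1 p.2 = 0

/-- The product of a list. -/
noncomputable def pr (lam : ∀ i, A i →⋆ₐ[ℂ] B) (l : List (Σ i, A i)) : B :=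
  (l.map fun p => lam p.1 p.2).prod

lemma pr_nil : pr lam [] = 1 := rfl

lemma pr_cons (p : Σ i, A i) (l : List (Σ i, A i)) : pr lam (p :: l) = lam p.1 p.2 * pr lam l := by
  simp [pr]

lemma pr_append (l l' : List (Σ i, A i)) : pr lam (l ++ l') = pr lam l * pr lam l' := by
  simp [pr]

/-- the centred part -/
noncomputable def cen (φ : ∀ i, A i →L[ℂ] ℂ) (i : ι) (a : A i) : A i := a - (φ i a) • (1 : A i)

lemma cen_zero (h : IsReducedFreeProduct φ ψ lam) (i : ι) (a : A i) : φ i (cen φ i a) = 0 := by
  have h1 : φ i 1 = 1 := by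
    rw [← h.restrict, map_one]
    exact h.state.1
  simp [cen, h1]

lemma lam_split (i : ι) (a : A i) : lam i a = lam i (cen φ i a) + (φ i a) • (1 : B) := by
  simp [cen, map_sub, map_smul]

lemma good_tail {p : Σ i, A i} {l : List (Σ i, A i)} (h : Good φ (p :: l)) : Good φ l :=
  ⟨h.1.tail, fun q hq => h.2 q (List.mem_cons_of_mem _ hq)⟩

lemma good_replace {p : Σ i, A i} {l : List (Σ i, A i)} (h : Good φ (p :: l)) (a : A p.1)
    (ha : φ p.1 a = 0) : Good φ (⟨p.1, a⟩ :: l) := by
  refine ⟨?_, ?_⟩
  · cases l with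
    | nil => simp
    | cons q l =>
      have := h.1
      rw [List.isChain_cons_cons] at this ⊢
      exact this
  · intro q hq
    rcases List.mem_cons.1 hq with rfl | hq
    · exact ha
    · exact h.2 q (List.mem_cons_of_mem _ hq)

lemma good_cons {p : Σ i, A i} {l : List (Σ i, A i)} (h : Good φ (p :: l)) (i : ι) (hi : i ≠ p.1)
    (a : A i) (ha : φ i a = 0) : Good φ (⟨i, a⟩ :: p :: l) := by
  refine ⟨?_, ?_⟩
  · rw [List.isChain_cons_cons]
    exact ⟨hi, h.1⟩
  · intro q hq
    rcases List.mem_cons.1 hq with rfl | hq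
    · exact ha
    · exact h.2 q hq

/-- The span of the products of alternating centred lists. -/
noncomputable def spanW (φ : ∀ i, A i →L[ℂ] ℂ) (lam : ∀ i, A i →⋆ₐ[ℂ] B) : Submodule ℂ B :=
  Submodule.span ℂ {x | ∃ l, Good φ l ∧ x = pr lam l}

lemma mem_spanW {l : List (Σ i, A i)} (hl : Good φ l) : pr lam l ∈ spanW φ lam :=
  Submodule.subset_span ⟨l, hl, rfl⟩

lemma lam_mul_mem (h : IsReducedFreeProduct φ ψ lam) (i : ι) (a : A i) (x : B)
    (hx : x ∈ spanW φ lam) : lam i a * x ∈ spanW φ lam := by
  classical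
  induction hx using Submodule.span_induction with
  | mem x hx =>
    obtain ⟨l, hl, rfl⟩ := hx
    cases l with
    | nil =>
      rw [pr_nil, mul_one, lam_split (φ := φ) i a]
      refine Submodule.add_mem _ ?_ (Submodule.smul_mem _ _ ?_)
      · have : lam i (cen φ i a) = pr lam [⟨i, cen φ i a⟩] := by simp [pr]
        rw [this]
        refine mem_spanW ⟨by simp, ?_⟩
        intro p hp
        simp only [List.mem_singleton] at hp
        subst hp
        exact cen_zero h i a
      · exact mem_spanW (l := []) ⟨by simp, by simp⟩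
    | cons p l =>
      by_cases hi : i = p.1
      · subst hi
        rw [pr_cons, ← mul_assoc, ← map_mul, lam_split (φ := φ) p.1 (a * p.2), add_mul,
          smul_mul_assoc, one_mul]
        refine Submodule.add_mem _ ?_ (Submodule.smul_mem _ _ (mem_spanW (good_tail hl)))
        have := mem_spanW (lam := lam) (good_replace hl (cen φ p.1 (a * p.2)) (cen_zero h _ _))
        rwa [pr_cons] at this
      · rw [lam_split (φ := φ) i a, add_mul, smul_mul_assoc, one_mul]
        refine Submodule.add_mem _ ?_ (Submodule.smul_mem _ _ (mem_spanW hl))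
        have := mem_spanW (lam := lam) (good_cons hl i hi (cen φ i a) (cen_zero h _ _))
        rwa [pr_cons] at this
  | zero => simp
  | add x y _ _ hx hy => rw [mul_add]; exact Submodule.add_mem _ hx hy
  | smul c x _ hx => rw [mul_smul_comm]; exact Submodule.smul_mem _ _ hx

lemma one_mem_spanW : (1 : B) ∈ spanW φ lam := mem_spanW (l := []) ⟨by simp, by simp⟩

lemma adjoin_le_spanW (h : IsReducedFreeProduct φ ψ lam) (x : B)
    (hx : x ∈ StarAlgebra.adjoin ℂ (⋃ i, Set.range (lam i))) : x ∈ spanW φ lam := by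
  have key : ∀ y ∈ spanW φ lam, x * y ∈ spanW φ lam := by
    have hx' : x ∈ Algebra.adjoin ℂ ((⋃ i, Set.range (lam i)) ∪ star (⋃ i, Set.range (lam i))) := by
      rw [← StarAlgebra.adjoin_toSubalgebra]
      exact hx
    induction hx' using Algebra.adjoin_induction with
    | mem z hz =>
      intro y hy
      rcases hz with hz | hz
      · obtain ⟨i, a, rfl⟩ := by simpa using hz
        exact lam_mul_mem h i a y hy
      · have : ∃ i a, lam i a = star z := by simpa using hz
        obtain ⟨i, a, ha⟩ := this
        have hz' : z = lam i (star a) := by rw [map_star, ha, star_star]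
        rw [hz']
        exact lam_mul_mem h i _ y hy
    | algebraMap c =>
      intro y hy
      rw [Algebra.algebraMap_eq_smul_one, smul_mul_assoc, one_mul]
      exact Submodule.smul_mem _ _ hy
    | add a b ha hb ha' hb' =>
      intro y hy
      rw [add_mul]
      refine Submodule.add_mem _ (ha' ?_ y hy) (hb' ?_ y hy)
      · rw [← StarAlgebra.adjoin_toSubalgebra] at ha; exact ha
      · rw [← StarAlgebra.adjoin_toSubalgebra] at hb; exact hb
    | mul a b ha hb ha' hb' =>
      intro y hy
      rw [mul_assoc]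
      refine ha' ?_ _ (hb' ?_ y hy)
      · rw [← StarAlgebra.adjoin_toSubalgebra] at ha; exact ha
      · rw [← StarAlgebra.adjoin_toSubalgebra] at hb; exact hb
  simpa using key 1 one_mem_spanW

/-- To prove that a continuous linear functional vanishes, it suffices to test on words. -/
lemma eq_zero_of_words (h : IsReducedFreeProduct φ ψ lam) (g : B →L[ℂ] ℂ)
    (hg : ∀ l, Good φ l → g (pr lam l) = 0) : ∀ x, g x = 0 := by
  have h1 : ∀ x ∈ spanW φ lam, g x = 0 := by
    intro x hx
    induction hx using Submodule.span_induction with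
    | mem x hx => obtain ⟨l, hl, rfl⟩ := hx; exact hg l hl
    | zero => simp
    | add x y _ _ hx hy => rw [map_add, hx, hy, add_zero]
    | smul c x _ hx => rw [map_smul, hx, smul_zero]
  intro x
  have hcl : IsClosed {x : B | g x = 0} := isClosed_eq g.continuous continuous_const
  have hsub : ((StarAlgebra.adjoin ℂ (⋃ i, Set.range (lam i)) : StarSubalgebra ℂ B) : Set B) ⊆
      {x : B | g x = 0} := fun y hy => h1 y (adjoin_le_spanW h y hy)
  exact hcl.closure_subset_iff.2 hsub (h.generate x)

lemma free_good (h : IsReducedFreeProduct φ ψ lam) {l : List (Σ i, A i)} (hl : Good φ l)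
    (hne : l ≠ []) : ψ (pr lam l) = 0 := h.free l hne hl.1 hl.2

/-- Multiplying a word of length at least two on the left by a letter gives a null element. -/
lemma left_zero (h : IsReducedFreeProduct φ ψ lam) {p q : Σ i, A i} {l : List (Σ i, A i)}
    (hl : Good φ (p :: q :: l)) (i : ι) (a : A i) : ψ (lam i a * pr lam (p :: q :: l)) = 0 := by
  classical
  by_cases hi : i = p.1
  · subst hi
    rw [pr_cons, ← mul_assoc, ← map_mul, lam_split (φ := φ) p.1 (a * p.2), add_mul,
      smul_mul_assoc, one_mul, map_add, map_smul]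
    have h1 := free_good h (good_replace hl (cen φ p.1 (a * p.2)) (cen_zero h _ _)) (by simp)
    rw [pr_cons] at h1
    rw [h1, free_good h (good_tail hl) (by simp)]
    simp
  · rw [lam_split (φ := φ) i a, add_mul, smul_mul_assoc, one_mul, map_add, map_smul]
    have h1 := free_good h (good_cons hl i hi (cen φ i a) (cen_zero h _ _)) (by simp)
    rw [pr_cons] at h1
    rw [h1, free_good h hl (by simp)]
    simp

/-- The adjoint word. -/
noncomputable def rev (l : List (Σ i, A i)) : List (Σ i, A i) :=
  (l.map fun p => (⟨p.1, star p.2⟩ : Σ i, A i)).reverse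

lemma pr_rev (l : List (Σ i, A i)) : pr lam (rev l) = star (pr lam l) := by
  induction l with
  | nil => simp [rev, pr]
  | cons p l ih =>
    have : rev (p :: l) = rev l ++ [⟨p.1, star p.2⟩] := by simp [rev]
    rw [this, pr_append, ih, pr_cons, pr_nil, mul_one, pr_cons, star_mul, map_star]

lemma good_rev (h : IsReducedFreeProduct φ ψ lam) {l : List (Σ i, A i)} (hl : Good φ l) :
    Good φ (rev l) := by
  refine ⟨?_, ?_⟩
  · unfold rev
    rw [List.isChain_reverse, List.isChain_map]
    exact hl.1.imp (fun _ _ hab => hab.symm)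
  · intro p hp
    simp only [rev, List.mem_reverse, List.mem_map] at hp
    obtain ⟨q, hq, rfl⟩ := hp
    have h1 := hl.2 q hq
    rw [← h.restrict] at h1 ⊢
    simp only [map_star]
    rw [h.state.map_star, h1]
    simp

lemma rev_length (l : List (Σ i, A i)) : (rev l).length = l.length := by simp [rev]

lemma right_zero (h : IsReducedFreeProduct φ ψ lam) {l : List (Σ i, A i)}
    (hl : Good φ l) (hlen : 2 ≤ l.length) (i : ι) (a : A i) : ψ (pr lam l * lam i a) = 0 := by
  have h1 : pr lam l * lam i a = star (lam i (star a) * pr lam (rev l)) := by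
    rw [pr_rev, star_mul, star_star, map_star, star_star]
  rw [h1, h.state.map_star]
  have h2 := good_rev h hl
  have h3 : 2 ≤ (rev l).length := by rw [rev_length]; exact hlen
  obtain ⟨p, q, l', hl'⟩ : ∃ p q l', rev l = p :: q :: l' := by
    match hr : rev l with
    | [] => rw [hr] at h3; simp at h3
    | [_] => rw [hr] at h3; simp at h3
    | p :: q :: l' => exact ⟨p, q, l', rfl⟩
  rw [hl'] at h2 ⊢
  rw [left_zero h h2 i (star a)]
  simp

end words

end Pool.Agent.H94.RFP
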